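import Pool.Agent.helper132_hp.T_RL
import Pool.Agent.helper132_hp.T_POL
import Pool.Agent.helper132_hp.T_DEC
import Pool.Agent.helper132_hp.T_INT

/-! Upper bound for the number of zeros in a box. -/

namespace Pool.Agent.helper613_wm

open Finset Pool.Agent.helper132_hp

section
variable {ι : Type} [Fintype ι] [DecidableEq ι]

theorem card_box_le (a b : ι → ℤ) :
    ∃ V : ℝ, 0 < V ∧ ∀ j : ℕ, ((box a b j).card : ℝ) ≤ V * 2 ^ (Fintype.card ι * j) := by
  refine ⟨∏ l, (|(b l : ℝ) - a l| + 1), Finset.prod_pos fun l _ => by positivity, fun j => ?_⟩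
  unfold Pool.Agent.helper132_hp.box
  rw [Fintype.card_piFinset]
  push_cast
  have h1 : (2 : ℝ) ^ (Fintype.card ι * j) = ∏ _l : ι, (2 : ℝ) ^ j := by
    rw [Finset.prod_const, Finset.card_univ, ← pow_mul, mul_comm]
  rw [h1, ← Finset.prod_mul_distrib]
  refine Finset.prod_le_prod (fun _ _ => by positivity) fun l _ => ?_
  rw [Int.card_Ico]
  have h2 : (((b l * 2 ^ j - a l * 2 ^ j).toNat : ℕ) : ℝ) ≤ |(b l : ℝ) - a l| * 2 ^ j := by
    have h3 : (((b l * 2 ^ j - a l * 2 ^ j).toNat : ℕ) : ℤ) ≤ |b l - a l| * 2 ^ j := by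
      rw [← sub_mul]
      have h4 : (0 : ℤ) < 2 ^ j := by positivity
      rcases le_or_gt 0 ((b l - a l) * 2 ^ j) with h | h
      · rw [Int.toNat_of_nonneg h]
        exact mul_le_mul_of_nonneg_right (le_abs_self _) h4.le
      · rw [Int.toNat_of_nonpos h.le]
        push_cast
        positivity
    have h5 : ((((b l * 2 ^ j - a l * 2 ^ j).toNat : ℕ) : ℤ) : ℝ) ≤ ((|b l - a l| * 2 ^ j : ℤ) : ℝ) := by
      exact_mod_cast h3
    push_cast at h5 ⊢
    exact h5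
  have h6 : (0 : ℝ) < 2 ^ j := by positivity
  nlinarith

/-- the number of zeros in the box of level `j` is `O(2^((n - D) j))`. -/
theorem N0_upper (G : MvPolynomial ι ℤ) (D : ℕ) (hD : 2 ≤ D) (hG : G.IsHomogeneous D)
    (a b : ι → ℤ) (hab : ∀ l, a l < b l) (hcr : Crude G D a b) :
    ∃ C : ℝ, 0 < C ∧ ∀ j : ℕ, (N0 G a b j : ℝ) * 2 ^ (D * j) ≤ C * 2 ^ (Fintype.card ι * j) := by
  obtain ⟨_, hmaj⟩ := t_DEC t_RL t_SC ι G D hD hG a b hab hcr
  obtain ⟨C, hC, j1, hint⟩ := t_INT ι G D hD hG a b hab hcr hmaj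
  obtain ⟨V, hV, hbox⟩ := card_box_le a b
  have hN0 : ∀ j, (N0 G a b j : ℝ) ≤ V * 2 ^ (Fintype.card ι * j) := fun j =>
    le_trans (by exact_mod_cast Finset.card_filter_le _ _) (hbox j)
  refine ⟨V * 2 ^ (D * j1) + (V + 3 * C), by positivity, fun j => ?_⟩
  have hn : (0 : ℝ) < 2 ^ (Fintype.card ι * j) := by positivity
  rcases lt_or_ge j j1 with hj | hj
  · have h1 : (2 : ℝ) ^ (D * j) ≤ 2 ^ (D * j1) :=
      pow_le_pow_right₀ (by norm_num) (Nat.mul_le_mul_left _ hj.le)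
    calc (N0 G a b j : ℝ) * 2 ^ (D * j) ≤ (V * 2 ^ (Fintype.card ι * j)) * 2 ^ (D * j1) :=
          mul_le_mul (hN0 j) h1 (by positivity) (by positivity)
      _ = (V * 2 ^ (D * j1)) * 2 ^ (Fintype.card ι * j) := by ring
      _ ≤ _ := by
          refine mul_le_mul_of_nonneg_right ?_ hn.le
          have : 0 ≤ V + 3 * C := by positivity
          linarith
  · have h := hint j hj 1 (2 ^ (D * j)) le_rfl
    rw [Nat.factorial_one] at h
    have hT : (0 : ℝ) < 2 ^ (D * j) := by positivity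
    have h1 := (abs_le.1 h).2
    have h2 : C * ((((1 : ℕ) : ℝ) * ((2 ^ (D * j) : ℕ) : ℝ)) / 2 ^ (D * j) + 1 / ((1 : ℕ) : ℝ) +
        1 / ((j : ℝ) + 1)) ≤ C * 3 := by
      refine mul_le_mul_of_nonneg_left ?_ hC.le
      have e1 : (((1 : ℕ) : ℝ) * ((2 ^ (D * j) : ℕ) : ℝ)) / 2 ^ (D * j) = 1 := by
        push_cast
        rw [one_mul, div_self hT.ne']
      have e2 : 1 / ((j : ℝ) + 1) ≤ 1 := by
        rw [div_le_one (by positivity)]
        have : (0 : ℝ) ≤ j := by positivity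
        linarith
      rw [e1]
      push_cast
      linarith
    have h3 : (N1 G a b j 1 (2 ^ (D * j)) : ℝ) / (2 * ((2 ^ (D * j) : ℕ) : ℝ) + 1) ≤
        V * 2 ^ (Fintype.card ι * j) / 2 ^ (D * j) := by
      have e1 : (N1 G a b j 1 (2 ^ (D * j)) : ℝ) ≤ V * 2 ^ (Fintype.card ι * j) :=
        le_trans (by exact_mod_cast Finset.card_filter_le _ _) (hbox j)
      refine div_le_div₀ (by positivity) e1 hT ?_
      push_cast
      linarith
    have h4 : (N0 G a b j : ℝ) ≤ V * 2 ^ (Fintype.card ι * j) / 2 ^ (D * j) +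
        C * 3 * (2 ^ (Fintype.card ι * j) / 2 ^ (D * j)) := by
      have h5 : C * ((((1 : ℕ) : ℝ) * ((2 ^ (D * j) : ℕ) : ℝ)) / 2 ^ (D * j) + 1 / ((1 : ℕ) : ℝ) +
        1 / ((j : ℝ) + 1)) * (2 ^ (Fintype.card ι * j) / 2 ^ (D * j)) ≤
          C * 3 * (2 ^ (Fintype.card ι * j) / 2 ^ (D * j)) :=
        mul_le_mul_of_nonneg_right h2 (by positivity)
      linarith
    have h6 : (N0 G a b j : ℝ) * 2 ^ (D * j) ≤ (V + 3 * C) * 2 ^ (Fintype.card ι * j) := by
      calc (N0 G a b j : ℝ) * 2 ^ (D * j) ≤ (V * 2 ^ (Fintype.card ι * j) / 2 ^ (D * j) +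
          C * 3 * (2 ^ (Fintype.card ι * j) / 2 ^ (D * j))) * 2 ^ (D * j) :=
            mul_le_mul_of_nonneg_right h4 hT.le
        _ = _ := by field_simp
    refine h6.trans (mul_le_mul_of_nonneg_right ?_ hn.le)
    have : 0 ≤ V * 2 ^ (D * j1) := by positivity
    linarith

end

end Pool.Agent.helper613_wm
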