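import Pool.Agent.helper613_wm.W5

/-! Counting points in cells. -/

namespace Pool.Agent.helper613_wm

open Finset Pool.Agent.helper132_hp

section
variable {ι : Type} [Fintype ι] [DecidableEq ι]

/-- one coordinate -/
theorem count_one (W Q : ℕ) (hW : 1 ≤ W) (a v : ℤ) :
    (Q : ℝ) / W - 1 ≤ (((Finset.Ico a (a + Q)).filter fun z => (W : ℤ) ∣ z - v).card : ℝ) ∧
    (((Finset.Ico a (a + Q)).filter fun z => (W : ℤ) ∣ z - v).card : ℝ) ≤ (Q : ℝ) / W + 1 := by
  have hWz : (0 : ℤ) < W := by exact_mod_cast hW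
  have hWR : (0 : ℝ) < W := by exact_mod_cast hW
  have h1 := Int.Ico_filter_modEq_card a (a + Q) hWz v
  have h2 : (Finset.Ico a (a + Q)).filter (fun z => (W : ℤ) ∣ z - v) =
      (Finset.Ico a (a + Q)).filter (fun z => z ≡ v [ZMOD W]) := by
    refine Finset.filter_congr fun z _ => ?_
    rw [Int.modEq_comm, Int.modEq_iff_dvd]
  rw [← h2] at h1
  obtain ⟨u, hu⟩ : ∃ u : ℤ, u = ⌈(((a + Q : ℤ) : ℚ) - v) / (((W : ℕ) : ℤ) : ℚ)⌉ := ⟨_, rfl⟩
  obtain ⟨w, hw⟩ : ∃ w : ℤ, w = ⌈((a : ℚ) - v) / (((W : ℕ) : ℤ) : ℚ)⌉ := ⟨_, rfl⟩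
  rw [← hu, ← hw] at h1
  have hWq : (0 : ℚ) < (((W : ℕ) : ℤ) : ℚ) := by exact_mod_cast hW
  have hc1 := Int.le_ceil ((((a + Q : ℤ) : ℚ) - v) / (((W : ℕ) : ℤ) : ℚ))
  have hc2 := Int.ceil_lt_add_one ((((a + Q : ℤ) : ℚ) - v) / (((W : ℕ) : ℤ) : ℚ))
  have hc3 := Int.le_ceil (((a : ℚ) - v) / (((W : ℕ) : ℤ) : ℚ))
  have hc4 := Int.ceil_lt_add_one (((a : ℚ) - v) / (((W : ℕ) : ℤ) : ℚ))
  rw [← hu] at hc1 hc2
  rw [← hw] at hc3 hc4
  rw [div_le_iff₀ hWq] at hc1 hc3
  rw [← sub_lt_iff_lt_add, lt_div_iff₀ hWq] at hc2 hc4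
  have i1 : (a + Q) - v ≤ u * W := by exact_mod_cast hc1
  have i2 : (u - 1) * W < (a + Q) - v := by exact_mod_cast hc2
  have i3 : a - v ≤ w * W := by exact_mod_cast hc3
  have i4 : (w - 1) * W < a - v := by exact_mod_cast hc4
  obtain ⟨c, hc⟩ : ∃ c : ℕ, c = ((Finset.Ico a (a + Q)).filter fun z => (W : ℤ) ∣ z - v).card :=
    ⟨_, rfl⟩
  rw [← hc] at h1 ⊢
  have k1 : (Q : ℤ) - W ≤ c * W := by
    have h3 : u - w ≤ (c : ℤ) := by rw [h1]; exact le_max_left _ _
    have h4 : (u - w) * W ≤ (c : ℤ) * W := mul_le_mul_of_nonneg_right h3 hWz.le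
    nlinarith
  have k2 : (c : ℤ) * W ≤ Q + W := by
    rw [h1]
    rcases max_choice (u - w) 0 with h | h
    · rw [h]
      nlinarith
    · rw [h]
      rw [zero_mul]
      positivity
  have k1' : (Q : ℝ) - W ≤ c * W := by exact_mod_cast k1
  have k2' : (c : ℝ) * W ≤ Q + W := by exact_mod_cast k2
  constructor
  · rw [sub_le_iff_le_add, div_le_iff₀ hWR]
    linarith
  · rw [← sub_le_iff_le_add, le_div_iff₀ hWR]
    linarith

/-- the points of a cell -/
noncomputable def cell (Q : ℕ) (y : ι → ℤ) : Finset (ι → ℤ) :=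
  Fintype.piFinset fun l => Finset.Ico (Q * y l) (Q * y l + Q)

theorem cell_class (W Q : ℕ) (hW : 1 ≤ W) (hQ : W ≤ Q) (y v : ι → ℤ) :
    ((Q : ℝ) / W - 1) ^ Fintype.card ι ≤
      (((cell Q y).filter fun z => ∀ l, (W : ℤ) ∣ z l - v l).card : ℝ) ∧
    (((cell Q y).filter fun z => ∀ l, (W : ℤ) ∣ z l - v l).card : ℝ) ≤
      ((Q : ℝ) / W + 1) ^ Fintype.card ι := by
  have h1 : (cell Q y).filter (fun z => ∀ l, (W : ℤ) ∣ z l - v l) =
      Fintype.piFinset fun l => (Finset.Ico (Q * y l) (Q * y l + Q)).filter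
        fun z => (W : ℤ) ∣ z - v l := by
    ext z
    unfold cell
    simp only [Finset.mem_filter, Fintype.mem_piFinset]
    exact ⟨fun h l => ⟨h.1 l, h.2 l⟩, fun h => ⟨fun l => (h l).1, fun l => (h l).2⟩⟩
  rw [h1, Fintype.card_piFinset]
  push_cast
  have hWR : (0 : ℝ) < W := by exact_mod_cast hW
  have hQW : 0 ≤ (Q : ℝ) / W - 1 := by
    have : (1 : ℝ) ≤ (Q : ℝ) / W := by
      rw [le_div_iff₀ hWR]
      have : (W : ℝ) ≤ Q := by exact_mod_cast hQ
      linarith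
    linarith
  constructor
  · calc ((Q : ℝ) / W - 1) ^ Fintype.card ι = ∏ _l : ι, ((Q : ℝ) / W - 1) := by
          rw [Finset.prod_const, Finset.card_univ]
      _ ≤ _ := Finset.prod_le_prod (fun _ _ => hQW) fun l _ => (count_one W Q hW _ _).1
  · calc _ ≤ ∏ _l : ι, ((Q : ℝ) / W + 1) :=
          Finset.prod_le_prod (fun _ _ => by positivity) fun l _ => (count_one W Q hW _ _).2
      _ = _ := by rw [Finset.prod_const, Finset.card_univ]

/-- the number of points of a cell with `W ∣ G(z)`. -/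
theorem cell_count (G : MvPolynomial ι ℤ) (W Q : ℕ) (hW : 1 ≤ W) (hQ : W ≤ Q) (y : ι → ℤ) :
    (Mq G W : ℝ) * ((Q : ℝ) / W - 1) ^ Fintype.card ι ≤
      (((cell Q y).filter fun z => (W : ℤ) ∣ MvPolynomial.eval z G).card : ℝ) ∧
    (((cell Q y).filter fun z => (W : ℤ) ∣ MvPolynomial.eval z G).card : ℝ) ≤
      (Mq G W : ℝ) * ((Q : ℝ) / W + 1) ^ Fintype.card ι := by
  classical
  have hWz : (0 : ℤ) < W := by exact_mod_cast hW
  have hmaps : ∀ z ∈ (cell Q y).filter (fun z => (W : ℤ) ∣ MvPolynomial.eval z G),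
      (fun l => z l % (W : ℤ)) ∈ (res ι W).filter (fun w => (W : ℤ) ∣ MvPolynomial.eval w G) := by
    intro z hz
    rw [Finset.mem_filter] at hz ⊢
    constructor
    · unfold res
      rw [Fintype.mem_piFinset]
      intro l
      rw [Finset.mem_Ico]
      exact ⟨Int.emod_nonneg _ hWz.ne', Int.emod_lt_of_pos _ hWz⟩
    · have h1 := ACMx.eval_congr_mod G W (fun l => z l % (W : ℤ)) z (fun l => by
        have := Int.emod_add_mul_ediv (z l) W
        refine ⟨-(z l / W), ?_⟩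
        linarith)
      have h2 := dvd_add h1 hz.2
      rwa [sub_add_cancel] at h2
  have hfib : ∀ v ∈ (res ι W).filter (fun w => (W : ℤ) ∣ MvPolynomial.eval w G),
      ((cell Q y).filter (fun z => (W : ℤ) ∣ MvPolynomial.eval z G)).filter
        (fun z => (fun l => z l % (W : ℤ)) = v) =
      (cell Q y).filter fun z => ∀ l, (W : ℤ) ∣ z l - v l := by
    intro v hv
    rw [Finset.mem_filter] at hv
    unfold res at hv
    rw [Fintype.mem_piFinset] at hv
    ext z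
    simp only [Finset.mem_filter]
    constructor
    · rintro ⟨⟨h1, h2⟩, h3⟩
      refine ⟨h1, fun l => ?_⟩
      have h4 := congrFun h3 l
      rw [← h4]
      have := Int.emod_add_mul_ediv (z l) W
      exact ⟨z l / W, by linarith⟩
    · rintro ⟨h1, h2⟩
      refine ⟨⟨h1, ?_⟩, ?_⟩
      · have h3 := ACMx.eval_congr_mod G W z v h2
        have h4 := dvd_add h3 hv.2
        rwa [sub_add_cancel] at h4
      · funext l
        have h3 := Finset.mem_Ico.1 (hv.1 l)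
        have h4 : z l % (W : ℤ) = v l % W := ((Int.modEq_iff_dvd.2 (h2 l)).symm : z l ≡ v l [ZMOD W])
        rw [h4]
        exact Int.emod_eq_of_lt h3.1 h3.2
  rw [Finset.card_eq_sum_card_fiberwise hmaps]
  push_cast
  have e1 : ∑ v ∈ (res ι W).filter (fun w => (W : ℤ) ∣ MvPolynomial.eval w G),
      ((((cell Q y).filter (fun z => (W : ℤ) ∣ MvPolynomial.eval z G)).filter
        (fun z => (fun l => z l % (W : ℤ)) = v)).card : ℝ) =
      ∑ v ∈ (res ι W).filter (fun w => (W : ℤ) ∣ MvPolynomial.eval w G),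
      (((cell Q y).filter fun z => ∀ l, (W : ℤ) ∣ z l - v l).card : ℝ) :=
    Finset.sum_congr rfl fun v hv => by rw [hfib v hv]
  rw [e1]
  unfold Mq
  rw [← nsmul_eq_mul, ← nsmul_eq_mul, ← Finset.sum_const, ← Finset.sum_const]
  exact ⟨Finset.sum_le_sum fun v _ => (cell_class W Q hW hQ y v).1,
    Finset.sum_le_sum fun v _ => (cell_class W Q hW hQ y v).2⟩

end

end Pool.Agent.helper613_wm
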