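import Pool.Agent.helper613_wm.W10

/-! The number of points of a box with `W ∣ G(z)` and `G(z)` small, by cells. -/

namespace Pool.Agent.helper613_wm

open Finset Pool.Agent.helper132_hp

section
variable {ι : Type} [Fintype ι] [DecidableEq ι]

/-- points of the cube of side `2^j` with `|G| ≤ x`. -/
noncomputable def Rc (G : MvPolynomial ι ℤ) (j : ℕ) (x : ℝ) : Finset (ι → ℤ) := by
  classical
  exact (Pool.Agent.helper132_hp.box (fun _ => -1) (fun _ => 1) j).filter fun y =>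
    |((MvPolynomial.eval y G : ℤ) : ℝ)| ≤ x

theorem mem_Rc (G : MvPolynomial ι ℤ) (j : ℕ) (x : ℝ) (y : ι → ℤ) :
    y ∈ Rc G j x ↔ y ∈ Pool.Agent.helper132_hp.box (fun _ => -1) (fun _ => 1) j ∧
      |((MvPolynomial.eval y G : ℤ) : ℝ)| ≤ x := by
  unfold Rc
  rw [Finset.mem_filter]

theorem Rc_mono (G : MvPolynomial ι ℤ) (j : ℕ) {x x' : ℝ} (h : x ≤ x') : Rc G j x ⊆ Rc G j x' := by
  intro y hy
  rw [mem_Rc] at hy ⊢
  exact ⟨hy.1, hy.2.trans h⟩

theorem mem_cell (Q : ℕ) (y z : ι → ℤ) :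
    z ∈ cell Q y ↔ ∀ l, (Q : ℤ) * y l ≤ z l ∧ z l < Q * y l + Q := by
  unfold cell
  rw [Fintype.mem_piFinset]
  simp only [Finset.mem_Ico]

theorem cell_iff (Q : ℕ) (hQ : 1 ≤ Q) (y z : ι → ℤ) :
    z ∈ cell Q y ↔ (fun l => z l / (Q : ℤ)) = y := by
  have hQz : (0 : ℤ) < Q := by exact_mod_cast hQ
  rw [mem_cell]
  constructor
  · intro h
    funext l
    refine le_antisymm ?_ ?_
    · have h1 : z l / (Q : ℤ) < y l + 1 := by
        refine Int.ediv_lt_of_lt_mul hQz ?_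
        have := (h l).2
        linarith
      omega
    · refine Int.le_ediv_of_mul_le hQz ?_
      have := (h l).1
      linarith
  · intro h l
    have h1 := congrFun h l
    rw [← h1]
    have h2 := Int.emod_add_mul_ediv (z l) Q
    have h3 := Int.emod_nonneg (z l) hQz.ne'
    have h4 := Int.emod_lt_of_pos (z l) hQz
    constructor <;> linarith

/-- the cells of the cube of side `2^j`, in the cube of side `t 2^J = Q 2^j`. -/
theorem cell_box (t j J Q : ℕ) (hQ1 : 1 ≤ Q) (hQ : Q * 2 ^ j = t * 2 ^ J) (y z : ι → ℤ)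
    (hz : z ∈ cell Q y) :
    y ∈ Pool.Agent.helper132_hp.box (fun _ => -1) (fun _ => 1) j ↔
      z ∈ Pool.Agent.helper132_hp.box (fun _ => -(t : ℤ)) (fun _ => (t : ℤ)) J := by
  have hQz : (0 : ℤ) < Q := by exact_mod_cast hQ1
  have hQ' : (Q : ℤ) * 2 ^ j = t * 2 ^ J := by exact_mod_cast hQ
  rw [mem_cell] at hz
  unfold Pool.Agent.helper132_hp.box
  rw [Fintype.mem_piFinset, Fintype.mem_piFinset]
  simp only [Finset.mem_Ico]
  refine forall_congr' fun l => ?_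
  obtain ⟨h1, h2⟩ := hz l
  have e1 : -(t : ℤ) * 2 ^ J = Q * (-1 * 2 ^ j) := by linarith
  have e2 : (t : ℤ) * 2 ^ J = Q * (1 * 2 ^ j) := by linarith
  rw [e1, e2]
  constructor
  · rintro ⟨h3, h4⟩
    constructor
    · have := mul_le_mul_of_nonneg_left h3 hQz.le
      linarith
    · have h5 : y l + 1 ≤ 1 * 2 ^ j := h4
      have := mul_le_mul_of_nonneg_left h5 hQz.le
      linarith
  · rintro ⟨h3, h4⟩
    constructor
    · by_contra h5
      have h6 : y l + 1 ≤ -1 * 2 ^ j := by omega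
      have := mul_le_mul_of_nonneg_left h6 hQz.le
      linarith
    · by_contra h5
      have h6 : 1 * 2 ^ j ≤ y l := by omega
      have := mul_le_mul_of_nonneg_left h6 hQz.le
      linarith

/-- the values of `G` in a cell. -/
theorem cell_val {G : MvPolynomial ι ℤ} {D : ℕ} (hD : 1 ≤ D) (hG : G.IsHomogeneous D) :
    ∃ K : ℝ, 0 ≤ K ∧ ∀ (t j J Q : ℕ) (_ : 1 ≤ Q) (_ : Q * 2 ^ j = t * 2 ^ J) (y z : ι → ℤ),
      z ∈ cell Q y → z ∈ Pool.Agent.helper132_hp.box (fun _ => -(t : ℤ)) (fun _ => (t : ℤ)) J →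
      |((MvPolynomial.eval z G : ℤ) : ℝ) - (Q : ℝ) ^ D * ((MvPolynomial.eval y G : ℤ) : ℝ)| ≤
        K * ((Q : ℝ) ^ D * (2 ^ j) ^ (D - 1)) := by
  obtain ⟨K, hK, hlip⟩ := RLx.lip hG
  refine ⟨K, hK, fun t j J Q hQ1 hQ y z hzc hzb => ?_⟩
  have hQR : (0 : ℝ) < Q := by exact_mod_cast hQ1
  have hQz : (0 : ℤ) < Q := by exact_mod_cast hQ1
  have hQ' : (Q : ℝ) * 2 ^ j = t * 2 ^ J := by exact_mod_cast hQ
  have hQ'' : (Q : ℤ) * 2 ^ j = t * 2 ^ J := by exact_mod_cast hQ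
  have hR : (0 : ℝ) < (Q : ℝ) * 2 ^ j := by positivity
  have hyb := (cell_box t j J Q hQ1 hQ y z hzc).2 hzb
  rw [mem_cell] at hzc
  unfold Pool.Agent.helper132_hp.box at hzb hyb
  rw [Fintype.mem_piFinset] at hzb hyb
  have h1 := hlip z (fun l => (Q : ℤ) * y l) (Q * 2 ^ j) Q hR hQR.le (by
    intro l
    obtain ⟨h2, h3⟩ := Finset.mem_Ico.1 (hzb l)
    have h4 : |z l| ≤ (Q : ℤ) * 2 ^ j := by
      rw [abs_le]
      constructor <;> linarith
    exact_mod_cast h4) (by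
    intro l
    obtain ⟨h2, h3⟩ := Finset.mem_Ico.1 (hyb l)
    have h4 : |(Q : ℤ) * y l| ≤ (Q : ℤ) * 2 ^ j := by
      rw [abs_mul, abs_of_pos hQz]
      refine mul_le_mul_of_nonneg_left ?_ hQz.le
      rw [abs_le]
      constructor <;> linarith
    exact_mod_cast h4) (by
    intro l
    obtain ⟨h2, h3⟩ := hzc l
    have h4 : |z l - (Q : ℤ) * y l| ≤ (Q : ℤ) := by
      rw [abs_le]
      constructor <;> linarith
    exact_mod_cast h4)
  have h2 : ((MvPolynomial.eval (fun l => (Q : ℤ) * y l) G : ℤ) : ℝ) =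
      (Q : ℝ) ^ D * ((MvPolynomial.eval y G : ℤ) : ℝ) := by
    rw [RLx.eval_cast, RLx.eval_cast, Finset.mul_sum]
    refine Finset.sum_congr rfl fun m hm => ?_
    push_cast
    simp only [mul_pow]
    rw [Finset.prod_mul_distrib, Finset.prod_pow_eq_pow_sum, RLx.deg_of_mem hG hm]
    ring
  rw [h2] at h1
  have h3 : K * ((Q : ℝ) * 2 ^ j) ^ D * Q = (K * ((Q : ℝ) ^ D * (2 ^ j) ^ (D - 1))) * (Q * 2 ^ j) := by
    obtain ⟨d, rfl⟩ : ∃ d, D = d + 1 := ⟨D - 1, by omega⟩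
    rw [Nat.add_sub_cancel, mul_pow, pow_succ ((2 : ℝ) ^ j)]
    ring
  rw [h3] at h1
  exact le_of_mul_le_mul_right h1 hR

end

end Pool.Agent.helper613_wm
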