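import Pool.Agent.helper613_wm.W11

/-! Two-sided bounds by cells. -/

namespace Pool.Agent.helper613_wm

open Finset Pool.Agent.helper132_hp

section
variable {ι : Type} [Fintype ι] [DecidableEq ι]

/-- the number of points in a cell counted by `N1`. -/
theorem N1_fib (G : MvPolynomial ι ℤ) (t j J Q W H : ℕ) (hQ1 : 1 ≤ Q)
    (hQ : Q * 2 ^ j = t * 2 ^ J) :
    (N1 G (fun _ => -(t : ℤ)) (fun _ => (t : ℤ)) J W H : ℝ) =
      ∑ y ∈ Pool.Agent.helper132_hp.box (fun _ => -1) (fun _ => 1) j,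
        ((((cell Q y).filter fun z => (W : ℤ) ∣ MvPolynomial.eval z G).filter fun z =>
          |MvPolynomial.eval z G| ≤ (W : ℤ) * H).card : ℝ) := by
  unfold N1
  have hmaps : ∀ z ∈ (Pool.Agent.helper132_hp.box (fun _ => -(t : ℤ)) (fun _ => (t : ℤ)) J).filter
      (fun z => (W : ℤ) ∣ MvPolynomial.eval z G ∧ |MvPolynomial.eval z G| ≤ (W : ℤ) * H),
      (fun l => z l / (Q : ℤ)) ∈ Pool.Agent.helper132_hp.box (fun _ : ι => (-1 : ℤ)) (fun _ => 1) j := by
    intro z hz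
    rw [Finset.mem_filter] at hz
    exact (cell_box t j J Q hQ1 hQ _ z ((cell_iff Q hQ1 _ z).2 rfl)).2 hz.1
  rw [Finset.card_eq_sum_card_fiberwise hmaps]
  push_cast
  refine Finset.sum_congr rfl fun y hy => ?_
  congr 2
  ext z
  simp only [Finset.mem_filter]
  constructor
  · rintro ⟨⟨h1, h2, h3⟩, h4⟩
    exact ⟨⟨(cell_iff Q hQ1 y z).2 h4, h2⟩, h3⟩
  · rintro ⟨⟨h1, h2⟩, h3⟩
    exact ⟨⟨(cell_box t j J Q hQ1 hQ y z h1).1 hy, h2, h3⟩, (cell_iff Q hQ1 y z).1 h1⟩

/-- the bounds by cells. -/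
theorem N1_cells {G : MvPolynomial ι ℤ} {D : ℕ} (hD : 1 ≤ D) (hG : G.IsHomogeneous D) :
    ∃ K : ℝ, 0 ≤ K ∧ ∀ (t j J Q W H : ℕ) (κ : ℝ), 1 ≤ Q → Q * 2 ^ j = t * 2 ^ J → 1 ≤ W →
      W ≤ Q →
      ((W * H : ℝ) ≤ κ * ((t : ℝ) * 2 ^ J) ^ D →
        (N1 G (fun _ => -(t : ℤ)) (fun _ => (t : ℤ)) J W H : ℝ) ≤
          (Rc G j (κ * (2 ^ j) ^ D + K * (2 ^ j) ^ (D - 1))).card *
            (Mq G W * ((Q : ℝ) / W + 1) ^ Fintype.card ι)) ∧
      (κ * ((t : ℝ) * 2 ^ J) ^ D - W ≤ (W * H : ℝ) →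
        ((Rc G j (κ * (2 ^ j) ^ D - K * (2 ^ j) ^ (D - 1) - 1)).card : ℝ) *
            (Mq G W * ((Q : ℝ) / W - 1) ^ Fintype.card ι) ≤
          (N1 G (fun _ => -(t : ℤ)) (fun _ => (t : ℤ)) J W H : ℝ)) := by
  classical
  obtain ⟨K, hK, hval⟩ := cell_val hD hG
  refine ⟨K, hK, fun t j J Q W H κ hQ1 hQ hW hWQ => ?_⟩
  have hQR : (0 : ℝ) < Q := by exact_mod_cast hQ1
  have hWR : (0 : ℝ) < W := by exact_mod_cast hW
  have hQD : (0 : ℝ) < (Q : ℝ) ^ D := by positivity
  have hQ' : (t : ℝ) * 2 ^ J = (Q : ℝ) * 2 ^ j := by exact_mod_cast hQ.symm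
  rw [hQ', mul_pow, N1_fib G t j J Q W H hQ1 hQ]
  have hQW0 : (0 : ℝ) ≤ (Q : ℝ) / W - 1 := by
    have h1 : (1 : ℝ) ≤ (Q : ℝ) / W := by
      rw [le_div_iff₀ hWR]
      have : (W : ℝ) ≤ Q := by exact_mod_cast hWQ
      linarith
    linarith
  constructor
  · intro hH
    have h1 : ∀ y ∈ Pool.Agent.helper132_hp.box (fun _ : ι => (-1 : ℤ)) (fun _ => 1) j,
        ((((cell Q y).filter fun z => (W : ℤ) ∣ MvPolynomial.eval z G).filter fun z =>
          |MvPolynomial.eval z G| ≤ (W : ℤ) * H).card : ℝ) ≤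
        if y ∈ Rc G j (κ * (2 ^ j) ^ D + K * (2 ^ j) ^ (D - 1)) then
          (Mq G W * ((Q : ℝ) / W + 1) ^ Fintype.card ι) else 0 := by
      intro y hy
      split_ifs with hyR
      · refine le_trans ?_ (cell_count G W Q hW hWQ y).2
        exact_mod_cast Finset.card_filter_le _ _
      · have h2 : (((cell Q y).filter fun z => (W : ℤ) ∣ MvPolynomial.eval z G).filter fun z =>
            |MvPolynomial.eval z G| ≤ (W : ℤ) * H) = ∅ := by
          rw [Finset.filter_eq_empty_iff]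
          intro z hz hz2
          rw [Finset.mem_filter] at hz
          apply hyR
          rw [mem_Rc]
          refine ⟨hy, ?_⟩
          have h3 := hval t j J Q hQ1 hQ y z hz.1 ((cell_box t j J Q hQ1 hQ y z hz.1).1 hy)
          have h4 : |((MvPolynomial.eval z G : ℤ) : ℝ)| ≤ (W * H : ℝ) := by exact_mod_cast hz2
          have h5 : (Q : ℝ) ^ D * |((MvPolynomial.eval y G : ℤ) : ℝ)| ≤
              (Q : ℝ) ^ D * (κ * (2 ^ j) ^ D + K * (2 ^ j) ^ (D - 1)) := by
            have h6 : (Q : ℝ) ^ D * |((MvPolynomial.eval y G : ℤ) : ℝ)| =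
                |(Q : ℝ) ^ D * ((MvPolynomial.eval y G : ℤ) : ℝ)| := by
              rw [abs_mul, abs_of_pos hQD]
            rw [h6]
            have h7 := abs_sub_abs_le_abs_sub ((Q : ℝ) ^ D * ((MvPolynomial.eval y G : ℤ) : ℝ))
              ((MvPolynomial.eval z G : ℤ) : ℝ)
            rw [abs_sub_comm] at h3
            nlinarith
          exact le_of_mul_le_mul_left h5 hQD
        rw [h2]
        simp
    refine (Finset.sum_le_sum h1).trans (le_of_eq ?_)
    rw [← Finset.sum_filter, Finset.sum_const, nsmul_eq_mul]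
    congr 2
    congr 1
    ext y
    rw [Finset.mem_filter]
    exact ⟨fun h => h.2, fun h => ⟨((mem_Rc G j _ y).1 h).1, h⟩⟩
  · intro hH
    have h1 : ∀ y ∈ Pool.Agent.helper132_hp.box (fun _ : ι => (-1 : ℤ)) (fun _ => 1) j,
        (if y ∈ Rc G j (κ * (2 ^ j) ^ D - K * (2 ^ j) ^ (D - 1) - 1) then
          (Mq G W * ((Q : ℝ) / W - 1) ^ Fintype.card ι) else 0) ≤
        ((((cell Q y).filter fun z => (W : ℤ) ∣ MvPolynomial.eval z G).filter fun z =>
          |MvPolynomial.eval z G| ≤ (W : ℤ) * H).card : ℝ) := by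
      intro y hy
      split_ifs with hyR
      · refine (cell_count G W Q hW hWQ y).1.trans ?_
        have h2 : (((cell Q y).filter fun z => (W : ℤ) ∣ MvPolynomial.eval z G).filter fun z =>
            |MvPolynomial.eval z G| ≤ (W : ℤ) * H) =
            (cell Q y).filter fun z => (W : ℤ) ∣ MvPolynomial.eval z G := by
          rw [Finset.filter_eq_self]
          intro z hz
          rw [Finset.mem_filter] at hz
          rw [mem_Rc] at hyR
          have h3 := hval t j J Q hQ1 hQ y z hz.1 ((cell_box t j J Q hQ1 hQ y z hz.1).1 hy)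
          have h4 : |((MvPolynomial.eval z G : ℤ) : ℝ)| ≤ (W * H : ℝ) := by
            refine le_trans ?_ hH
            have h6 : (Q : ℝ) ^ D * |((MvPolynomial.eval y G : ℤ) : ℝ)| =
                |(Q : ℝ) ^ D * ((MvPolynomial.eval y G : ℤ) : ℝ)| := by
              rw [abs_mul, abs_of_pos hQD]
            have h7 := abs_sub_abs_le_abs_sub ((MvPolynomial.eval z G : ℤ) : ℝ)
              ((Q : ℝ) ^ D * ((MvPolynomial.eval y G : ℤ) : ℝ))
            have h8 := mul_le_mul_of_nonneg_left hyR.2 hQD.le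
            have h9 : (W : ℝ) ≤ (Q : ℝ) ^ D := by
              have h10 : (W : ℝ) ≤ Q := by exact_mod_cast hWQ
              have h11 : (1 : ℝ) ≤ Q := by exact_mod_cast hQ1
              exact h10.trans (le_self_pow₀ h11 (by omega))
            nlinarith
          exact_mod_cast h4
        rw [h2]
      · positivity
    refine le_trans (le_of_eq ?_) (Finset.sum_le_sum h1)
    rw [← Finset.sum_filter, Finset.sum_const, nsmul_eq_mul]
    congr 2
    congr 1
    ext y
    rw [Finset.mem_filter]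
    exact ⟨fun h => ⟨((mem_Rc G j _ y).1 h).1, h⟩, fun h => h.2⟩

end

end Pool.Agent.helper613_wm
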