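import Pool.Agent.helper613_wm.W12

/-! The density of the zeros in large cubes exists. -/

namespace Pool.Agent.helper613_wm

open Finset Filter Topology Pool.Agent.helper132_hp

section
variable {ι : Type} [Fintype ι] [DecidableEq ι]

/-- the normalized number of zeros in the cube of side `t 2^J`. -/
noncomputable def aa (G : MvPolynomial ι ℤ) (E t J : ℕ) : ℝ :=
  (N0 G (fun _ => -(t : ℤ)) (fun _ => (t : ℤ)) J : ℝ) / ((t : ℝ) * 2 ^ J) ^ E

/-- the normalized number of points with `|G| ≤ x`, times the density modulo `W`. -/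
noncomputable def MM (G : MvPolynomial ι ℤ) (W j : ℕ) (x : ℝ) : ℝ :=
  ((Rc G j x).card : ℝ) * (Mq G W * (W / ((2 : ℝ) ^ j * W) ^ Fintype.card ι))

theorem MM_mono (G : MvPolynomial ι ℤ) (W j : ℕ) {x x' : ℝ} (h : x ≤ x') :
    MM G W j x ≤ MM G W j x' := by
  unfold MM
  refine mul_le_mul_of_nonneg_right ?_ (by positivity)
  exact_mod_cast Finset.card_le_card (Rc_mono G j h)

theorem MM_nonneg (G : MvPolynomial ι ℤ) (W j : ℕ) (x : ℝ) : 0 ≤ MM G W j x := by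
  unfold MM
  positivity

theorem tend_u (t : ℕ) (ht : 1 ≤ t) :
    Tendsto (fun J : ℕ => 1 / ((t : ℝ) * 2 ^ J)) atTop (𝓝 0) := by
  have htR : (0 : ℝ) < t := by exact_mod_cast ht
  refine tendsto_const_nhds.div_atTop ?_
  refine Tendsto.const_mul_atTop htR ?_
  exact tendsto_pow_atTop_atTop_of_one_lt (by norm_num)

/-- the bounds for the number of zeros. -/
theorem aa_bounds (G : MvPolynomial ι ℤ) (D E : ℕ) (hD : 2 ≤ D) (hE : Fintype.card ι = E + D)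
    (hG : G.IsHomogeneous D)
    (hcr : ∀ t : ℕ, 1 ≤ t → Crude G D (fun _ => -(t : ℤ)) (fun _ => (t : ℤ))) :
    ∃ K : ℝ, 0 ≤ K ∧ ∀ t : ℕ, 1 ≤ t → ∃ C : ℝ, 0 ≤ C ∧ ∀ (κ : ℝ) (N j : ℕ) (η : ℝ), 0 < κ →
      1 ≤ N → 0 < η → ∃ J0 : ℕ, ∀ J ≥ J0,
        aa G E t J ≤ MM G N.factorial j (κ * (2 ^ j) ^ D + K * (2 ^ j) ^ (D - 1)) / (2 * κ) +
          C * (κ + 1 / N) + η ∧
        MM G N.factorial j (κ * (2 ^ j) ^ D - K * (2 ^ j) ^ (D - 1) - 1) / (2 * κ) -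
          C * (κ + 1 / N) - η ≤ aa G E t J := by
  obtain ⟨K, hK, hcells⟩ := N1_cells (by omega : 1 ≤ D) hG
  refine ⟨K, hK, fun t ht => ?_⟩
  have htR : (1 : ℝ) ≤ t := by exact_mod_cast ht
  have htR0 : (0 : ℝ) < t := by linarith
  have hab : ∀ _l : ι, -(t : ℤ) < (t : ℤ) := by
    intro _
    have : (1 : ℤ) ≤ t := by exact_mod_cast ht
    omega
  obtain ⟨_, hmaj⟩ := t_DEC t_RL t_SC ι G D hD hG _ _ hab (hcr t ht)
  obtain ⟨C, hC, j1, hint⟩ := t_INT ι G D hD hG _ _ hab (hcr t ht) hmaj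
  refine ⟨C * (t : ℝ) ^ D, by positivity, fun κ N j η hκ hN hη => ?_⟩
  obtain ⟨W, hW⟩ : ∃ W, W = N.factorial := ⟨_, rfl⟩
  rw [← hW]
  have hW1 : 1 ≤ W := by rw [hW]; exact Nat.factorial_pos N
  have hWR : (0 : ℝ) < W := by exact_mod_cast hW1
  obtain ⟨P, hP⟩ : ∃ P : ℝ, P = 2 ^ j := ⟨_, rfl⟩
  have hP0 : 0 < P := by rw [hP]; positivity
  obtain ⟨n, hn⟩ : ∃ n, n = Fintype.card ι := ⟨_, rfl⟩
  obtain ⟨Rp, hRp⟩ : ∃ Rp : ℝ, Rp = ((Rc G j (κ * (2 ^ j) ^ D + K * (2 ^ j) ^ (D - 1))).card : ℝ) :=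
    ⟨_, rfl⟩
  obtain ⟨Rm, hRm⟩ : ∃ Rm : ℝ,
    Rm = ((Rc G j (κ * (2 ^ j) ^ D - K * (2 ^ j) ^ (D - 1) - 1)).card : ℝ) := ⟨_, rfl⟩
  obtain ⟨Mw, hMw⟩ : ∃ Mw : ℝ, Mw = (Mq G W : ℝ) := ⟨_, rfl⟩
  have hRp0 : 0 ≤ Rp := by rw [hRp]; positivity
  have hRm0 : 0 ≤ Rm := by rw [hRm]; positivity
  have hMw0 : 0 ≤ Mw := by rw [hMw]; positivity
  have hu := tend_u t ht
  -- the two limits
  have hlimU : Tendsto (fun J : ℕ => Rp * (Mw * (1 / (P * W) + 1 / ((t : ℝ) * 2 ^ J)) ^ n) /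
      (2 * κ / W - (1 / ((t : ℝ) * 2 ^ J)) ^ D)) atTop
      (𝓝 (Rp * (Mw * (1 / (P * W) + 0) ^ n) / (2 * κ / W - 0 ^ D))) := by
    refine Tendsto.div (Tendsto.const_mul _ (Tendsto.const_mul _ ((hu.const_add _).pow n)))
      ((hu.pow D).const_sub _) ?_
    rw [zero_pow (by omega), sub_zero]
    positivity
  have hlimL : Tendsto (fun J : ℕ => Rm * (Mw * (1 / (P * W) - 1 / ((t : ℝ) * 2 ^ J)) ^ n) /
      (2 * κ / W + (1 / ((t : ℝ) * 2 ^ J)) ^ D)) atTop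
      (𝓝 (Rm * (Mw * (1 / (P * W) - 0) ^ n) / (2 * κ / W + 0 ^ D))) := by
    refine Tendsto.div (Tendsto.const_mul _ (Tendsto.const_mul _ ((hu.const_sub _).pow n)))
      ((hu.pow D).const_add _) ?_
    rw [zero_pow (by omega), add_zero]
    positivity
  have eU : Rp * (Mw * (1 / (P * W) + 0) ^ n) / (2 * κ / W - 0 ^ D) =
      MM G W j (κ * (2 ^ j) ^ D + K * (2 ^ j) ^ (D - 1)) / (2 * κ) := by
    unfold MM
    rw [← hRp, ← hMw, ← hn, ← hP, zero_pow (by omega), sub_zero, add_zero]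
    have : (P * W) ^ n ≠ 0 := by positivity
    rw [one_div, inv_pow]
    field_simp
  have eL : Rm * (Mw * (1 / (P * W) - 0) ^ n) / (2 * κ / W + 0 ^ D) =
      MM G W j (κ * (2 ^ j) ^ D - K * (2 ^ j) ^ (D - 1) - 1) / (2 * κ) := by
    unfold MM
    rw [← hRm, ← hMw, ← hn, ← hP, zero_pow (by omega), sub_zero, add_zero]
    have : (P * W) ^ n ≠ 0 := by positivity
    rw [one_div, inv_pow]
    field_simp
  rw [eU] at hlimU
  rw [eL] at hlimL
  have hU1 := hlimU.eventually (eventually_lt_nhds (lt_add_of_pos_right _ (half_pos hη)))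
  have hL1 := hlimL.eventually (eventually_gt_nhds (sub_lt_self _ (half_pos hη)))
  have hJ1 : Tendsto (fun J : ℕ => C * (1 / ((J : ℝ) + 1))) atTop (𝓝 (C * 0)) :=
    tendsto_one_div_add_atTop_nhds_zero_nat.const_mul C
  rw [mul_zero] at hJ1
  have hJ2 := hJ1.eventually (eventually_lt_nhds (half_pos hη))
  have hu2 := (hu.pow D).eventually (eventually_lt_nhds (show (0 : ℝ) ^ D < 2 * κ / W by
    rw [zero_pow (by omega)]; positivity))
  have hu3 := hu.eventually (eventually_lt_nhds (show (0 : ℝ) < 1 / (P * W) by positivity))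
  obtain ⟨J0, hJ0⟩ := Filter.eventually_atTop.1 (hU1.and (hL1.and (hJ2.and (hu2.and hu3))))
  refine ⟨max J0 (max j1 j), fun J hJ => ?_⟩
  have hJJ0 : J0 ≤ J := le_trans (le_max_left _ _) hJ
  have hJj1 : j1 ≤ J := le_trans (le_trans (le_max_left _ _) (le_max_right _ _)) hJ
  have hJj : j ≤ J := le_trans (le_trans (le_max_right _ _) (le_max_right _ _)) hJ
  obtain ⟨g1, g2, g3, g4, g5⟩ := hJ0 J hJJ0
  obtain ⟨Q, hQ⟩ : ∃ Q : ℕ, Q = t * 2 ^ (J - j) := ⟨_, rfl⟩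
  have hQj : Q * 2 ^ j = t * 2 ^ J := by
    rw [hQ, mul_assoc, ← pow_add, Nat.sub_add_cancel hJj]
  have hQ1 : 1 ≤ Q := by
    rw [hQ]
    exact Nat.mul_pos ht (by positivity)
  obtain ⟨X, hX⟩ : ∃ X : ℝ, X = (t : ℝ) * 2 ^ J := ⟨_, rfl⟩
  have hX0 : 0 < X := by rw [hX]; positivity
  rw [← hX] at g1 g2 g4 g5
  have hQX : (Q : ℝ) = X / P := by
    rw [eq_div_iff hP0.ne', hX, hP]
    exact_mod_cast hQj
  have hWQ : W ≤ Q := by
    have h1 : (W : ℝ) ≤ Q := by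
      rw [hQX, le_div_iff₀ hP0]
      rw [div_lt_div_iff₀ hX0 (by positivity)] at g5
      linarith
    exact_mod_cast h1
  obtain ⟨H, hH⟩ : ∃ H : ℕ, H = ⌊κ * X ^ D / W⌋₊ := ⟨_, rfl⟩
  have hH1 : (H : ℝ) ≤ κ * X ^ D / W := by rw [hH]; exact Nat.floor_le (by positivity)
  have hH2 : κ * X ^ D / W < H + 1 := by rw [hH]; exact Nat.lt_floor_add_one _
  have hWH1 : (W * H : ℝ) ≤ κ * X ^ D := by
    rw [le_div_iff₀ hWR] at hH1
    linarith
  have hWH2 : κ * X ^ D - W ≤ (W * H : ℝ) := by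
    rw [div_lt_iff₀ hWR] at hH2
    linarith
  obtain ⟨c1, c2⟩ := hcells t j J Q W H κ hQ1 hQj hW1 hWQ
  rw [← hX] at c1 c2
  have d1 := c1 hWH1
  have d2 := c2 hWH2
  rw [← hRp, ← hMw, ← hn] at d1
  rw [← hRm, ← hMw, ← hn] at d2
  obtain ⟨n1, hn1⟩ : ∃ n1 : ℝ, n1 = (N1 G (fun _ => -(t : ℤ)) (fun _ => (t : ℤ)) J W H : ℝ) :=
    ⟨_, rfl⟩
  rw [← hn1] at d1 d2
  have hint1 := hint J hJj1 N H hN
  rw [← hW, ← hn1] at hint1
  have hnE : n = E + D := by rw [hn, hE]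
  have hXE : 0 < X ^ E := by positivity
  have hXD : 0 < X ^ D := by positivity
  -- the error term of t_INT
  have herr : C * ((W * H : ℝ) / 2 ^ (D * J) + 1 / N + 1 / (J + 1)) *
      (2 ^ (Fintype.card ι * J) / 2 ^ (D * J)) ≤ (C * (t : ℝ) ^ D * (κ + 1 / N) + η / 2) * X ^ E := by
    have e1 : (2 : ℝ) ^ (Fintype.card ι * J) / 2 ^ (D * J) ≤ X ^ E := by
      rw [hE, add_mul, pow_add, mul_div_assoc, div_self (by positivity), mul_one, hX, mul_pow,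
        mul_comm E J, pow_mul]
      exact le_mul_of_one_le_left (by positivity) (one_le_pow₀ htR)
    have e2 : (W * H : ℝ) / 2 ^ (D * J) ≤ κ * (t : ℝ) ^ D := by
      rw [div_le_iff₀ (by positivity)]
      refine hWH1.trans (le_of_eq ?_)
      rw [hX, mul_pow, mul_comm D J, pow_mul]
      ring
    have htD : (1 : ℝ) ≤ (t : ℝ) ^ D := one_le_pow₀ htR
    have hNp : (0 : ℝ) ≤ 1 / N := by positivity
    have e3 : C * ((W * H : ℝ) / 2 ^ (D * J) + 1 / N + 1 / (J + 1)) ≤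
        C * (t : ℝ) ^ D * (κ + 1 / N) + η / 2 := by
      have e4 : C * ((W * H : ℝ) / 2 ^ (D * J) + 1 / N + 1 / (J + 1)) ≤
          C * (κ * (t : ℝ) ^ D + (t : ℝ) ^ D * (1 / N)) + C * (1 / (J + 1)) := by
        rw [← mul_add]
        refine mul_le_mul_of_nonneg_left ?_ hC.le
        have : 1 / (N : ℝ) ≤ (t : ℝ) ^ D * (1 / N) := le_mul_of_one_le_left hNp htD
        linarith
      have e5 : C * (t : ℝ) ^ D * (κ + 1 / N) =
          C * (κ * (t : ℝ) ^ D + (t : ℝ) ^ D * (1 / N)) := by ring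
      rw [e5]
      linarith
    exact mul_le_mul e3 e1 (by positivity) (by positivity)
  have hden1 : (0 : ℝ) < 2 * H + 1 := by positivity
  -- bounds for the main term
  have hmU : n1 / (2 * H + 1) ≤ (MM G W j (κ * (2 ^ j) ^ D + K * (2 ^ j) ^ (D - 1)) / (2 * κ) +
      η / 2) * X ^ E := by
    have hden2 : 0 < 2 * κ / W - (1 / X) ^ D := by linarith
    have f1 : (2 * κ / W - (1 / X) ^ D) * X ^ D ≤ 2 * H + 1 := by
      rw [sub_mul, div_pow, one_pow, div_mul_cancel₀ _ hXD.ne']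
      have : 2 * κ / W * X ^ D = 2 * (κ * X ^ D / W) := by ring
      rw [this]
      linarith
    have f2 : ((Q : ℝ) / W + 1) ^ n = (1 / (P * W) + 1 / X) ^ n * (X ^ E * X ^ D) := by
      rw [← pow_add, ← hnE, ← mul_pow, hQX]
      congr 1
      field_simp
    rw [f2] at d1
    calc n1 / (2 * H + 1) ≤ n1 / ((2 * κ / W - (1 / X) ^ D) * X ^ D) := by
          refine div_le_div_of_nonneg_left ?_ (by positivity) f1
          rw [hn1]
          positivity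
      _ ≤ Rp * (Mw * ((1 / (P * W) + 1 / X) ^ n * (X ^ E * X ^ D))) /
            ((2 * κ / W - (1 / X) ^ D) * X ^ D) :=
          div_le_div_of_nonneg_right d1 (by positivity)
      _ = Rp * (Mw * (1 / (P * W) + 1 / X) ^ n) / (2 * κ / W - (1 / X) ^ D) * X ^ E := by
          field_simp
      _ ≤ _ := mul_le_mul_of_nonneg_right g1.le hXE.le
  have hmL : (MM G W j (κ * (2 ^ j) ^ D - K * (2 ^ j) ^ (D - 1) - 1) / (2 * κ) -
      η / 2) * X ^ E ≤ n1 / (2 * H + 1) := by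
    have hden2 : 0 < 2 * κ / W + (1 / X) ^ D := by positivity
    have f1 : 2 * H + 1 ≤ (2 * κ / W + (1 / X) ^ D) * X ^ D := by
      rw [add_mul, div_pow, one_pow, div_mul_cancel₀ _ hXD.ne']
      have : 2 * κ / W * X ^ D = 2 * (κ * X ^ D / W) := by ring
      rw [this]
      linarith
    have f2 : ((Q : ℝ) / W - 1) ^ n = (1 / (P * W) - 1 / X) ^ n * (X ^ E * X ^ D) := by
      rw [← pow_add, ← hnE, ← mul_pow, hQX]
      congr 1
      field_simp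
    rw [f2] at d2
    calc _ ≤ Rm * (Mw * (1 / (P * W) - 1 / X) ^ n) / (2 * κ / W + (1 / X) ^ D) * X ^ E :=
          mul_le_mul_of_nonneg_right g2.le hXE.le
      _ = Rm * (Mw * ((1 / (P * W) - 1 / X) ^ n * (X ^ E * X ^ D))) /
            ((2 * κ / W + (1 / X) ^ D) * X ^ D) := by
          field_simp
      _ ≤ n1 / ((2 * κ / W + (1 / X) ^ D) * X ^ D) :=
          div_le_div_of_nonneg_right d2 (by positivity)
      _ ≤ n1 / (2 * H + 1) := by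
          refine div_le_div_of_nonneg_left ?_ hden1 f1
          rw [hn1]
          positivity
  have hi := abs_le.1 hint1
  unfold aa
  rw [← hX]
  have hi1 := hi.1
  have hi2 := hi.2
  obtain ⟨a1, ha1⟩ : ∃ a1 : ℝ,
    a1 = MM G W j (κ * (2 ^ j) ^ D + K * (2 ^ j) ^ (D - 1)) / (2 * κ) := ⟨_, rfl⟩
  obtain ⟨a2, ha2⟩ : ∃ a2 : ℝ,
    a2 = MM G W j (κ * (2 ^ j) ^ D - K * (2 ^ j) ^ (D - 1) - 1) / (2 * κ) := ⟨_, rfl⟩
  obtain ⟨b1, hb1⟩ : ∃ b1 : ℝ, b1 = C * (t : ℝ) ^ D * (κ + 1 / N) := ⟨_, rfl⟩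
  obtain ⟨Y, hY⟩ : ∃ Y : ℝ, Y = X ^ E := ⟨_, rfl⟩
  rw [← hb1, ← hY] at herr
  rw [← ha1, ← hY] at hmU
  rw [← ha2, ← hY] at hmL
  rw [← ha1, ← ha2, ← hb1, ← hY]
  rw [← hY] at hXE
  constructor
  · rw [div_le_iff₀ hXE]
    have e1 : (a1 + b1 + η) * Y = (a1 + η / 2) * Y + (b1 + η / 2) * Y := by ring
    rw [e1]
    linarith
  · rw [le_div_iff₀ hXE]
    have e1 : (a2 - b1 - η) * Y = (a2 - η / 2) * Y - (b1 + η / 2) * Y := by ring
    rw [e1]
    linarith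

end

end Pool.Agent.helper613_wm
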