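import Pool.Agent.helper613_wm.W13

/-! The limit of the density exists and does not depend on the cube. -/

namespace Pool.Agent.helper613_wm

open Finset Filter Topology Pool.Agent.helper132_hp

theorem limit_of_compare (a : ℕ → ℕ → ℝ)
    (h : ∀ t t' : ℕ, 1 ≤ t → 1 ≤ t' → ∀ ε : ℝ, 0 < ε → ∃ J0 : ℕ, ∀ J ≥ J0, ∀ J' ≥ J0,
      a t J ≤ a t' J' + ε) :
    ∃ c : ℝ, ∀ t : ℕ, 1 ≤ t → Tendsto (a t) atTop (𝓝 c) := by
  have hc : CauchySeq (a 1) := by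
    rw [Metric.cauchySeq_iff]
    intro ε hε
    obtain ⟨J0, hJ0⟩ := h 1 1 le_rfl le_rfl (ε / 2) (half_pos hε)
    refine ⟨J0, fun m hm n hn => ?_⟩
    rw [Real.dist_eq, abs_lt]
    have h1 := hJ0 m hm n hn
    have h2 := hJ0 n hn m hm
    constructor <;> linarith
  obtain ⟨c, hc⟩ := cauchySeq_tendsto_of_complete hc
  refine ⟨c, fun t ht => ?_⟩
  rw [Metric.tendsto_atTop] at hc ⊢
  intro ε hε
  obtain ⟨J1, hJ1⟩ := hc (ε / 2) (half_pos hε)
  obtain ⟨J2, hJ2⟩ := h t 1 ht le_rfl (ε / 4) (by positivity)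
  obtain ⟨J3, hJ3⟩ := h 1 t le_rfl ht (ε / 4) (by positivity)
  refine ⟨max J1 (max J2 J3), fun J hJ => ?_⟩
  have k1 : J1 ≤ J := le_trans (le_max_left _ _) hJ
  have k2 : J2 ≤ J := le_trans (le_trans (le_max_left _ _) (le_max_right _ _)) hJ
  have k3 : J3 ≤ J := le_trans (le_trans (le_max_right _ _) (le_max_right _ _)) hJ
  have h1 := hJ1 J k1
  have h2 := hJ2 J k2 J k2
  have h3 := hJ3 J k3 J k3
  rw [Real.dist_eq, abs_lt] at h1 ⊢
  constructor <;> linarith [h1.1, h1.2]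

section
variable {ι : Type} [Fintype ι] [DecidableEq ι]

/-- the density of the zeros in cubes exists. -/
theorem aa_limit (G : MvPolynomial ι ℤ) (D E : ℕ) (hD : 2 ≤ D) (hE : Fintype.card ι = E + D)
    (hG : G.IsHomogeneous D)
    (hcr : ∀ t : ℕ, 1 ≤ t → Crude G D (fun _ => -(t : ℤ)) (fun _ => (t : ℤ))) :
    ∃ c : ℝ, ∀ t : ℕ, 1 ≤ t → Tendsto (fun J => aa G E t J) atTop (𝓝 c) := by
  refine limit_of_compare (fun t J => aa G E t J) ?_
  intro t t' ht ht' ε0 hε0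
  obtain ⟨K, hK, hb⟩ := aa_bounds G D E hD hE hG hcr
  obtain ⟨C, hC, hbt⟩ := hb t ht
  obtain ⟨C', hC', hbt'⟩ := hb t' ht'
  -- an upper bound for the second sequence
  obtain ⟨B, hB, hBb⟩ : ∃ B : ℝ, 0 < B ∧ ∀ J, aa G E t' J ≤ B := by
    have hab : ∀ _l : ι, -(t' : ℤ) < (t' : ℤ) := by
      intro _
      have : (1 : ℤ) ≤ t' := by exact_mod_cast ht'
      omega
    obtain ⟨B, hB, hup⟩ := N0_upper G D hD hG _ _ hab (hcr t' ht')
    refine ⟨B, hB, fun J => ?_⟩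
    have htR : (1 : ℝ) ≤ t' := by exact_mod_cast ht'
    unfold aa
    rw [div_le_iff₀ (by positivity)]
    have h1 := hup J
    have h2 : (2 : ℝ) ^ (Fintype.card ι * J) = (2 ^ J) ^ E * 2 ^ (D * J) := by
      rw [hE, ← pow_mul, ← pow_add]
      congr 1
      ring
    rw [h2, ← mul_assoc] at h1
    have h3 := le_of_mul_le_mul_right h1 (by positivity)
    refine h3.trans (mul_le_mul_of_nonneg_left ?_ hB.le)
    rw [mul_pow]
    exact le_mul_of_one_le_left (by positivity) (one_le_pow₀ htR)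
  obtain ⟨ε, hε⟩ : ∃ ε : ℝ, ε = min ε0 1 := ⟨_, rfl⟩
  have hε1 : ε ≤ 1 := by rw [hε]; exact min_le_right _ _
  have hε2 : ε ≤ ε0 := by rw [hε]; exact min_le_left _ _
  have hεp : 0 < ε := by rw [hε]; exact lt_min hε0 one_pos
  obtain ⟨κ, hκ⟩ : ∃ κ : ℝ, κ = ε / (16 * (C + C' + 1)) := ⟨_, rfl⟩
  have hκ0 : 0 < κ := by rw [hκ]; positivity
  have hCκ : (C + C' + 1) * κ = ε / 16 := by
    rw [hκ]
    field_simp
  have hC1 : C * κ ≤ ε / 16 := by
    rw [← hCκ]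
    exact mul_le_mul_of_nonneg_right (by linarith) hκ0.le
  have hC2 : C' * κ ≤ ε / 16 := by
    rw [← hCκ]
    exact mul_le_mul_of_nonneg_right (by linarith) hκ0.le
  obtain ⟨N, hN⟩ : ∃ N : ℕ, 1 / κ < N := exists_nat_gt _
  have hNR : (0 : ℝ) < N := lt_trans (by positivity) hN
  have hN1 : 1 ≤ N := by exact_mod_cast hNR
  have hNκ : 1 / (N : ℝ) ≤ κ := by
    rw [div_lt_iff₀ hκ0] at hN
    rw [div_le_iff₀ hNR]
    linarith
  obtain ⟨θ, hθ⟩ : ∃ θ : ℝ, θ = ε / (4 * (B + 1)) := ⟨_, rfl⟩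
  have hθ0 : 0 < θ := by rw [hθ]; positivity
  have hθB : θ * (B + 1) = ε / 4 := by
    rw [hθ]
    field_simp
  have hθ1 : θ ≤ 1 := by nlinarith
  obtain ⟨j, hj⟩ : ∃ j : ℕ, (2 * K + 1) / (κ * θ) < (2 : ℝ) ^ j :=
    pow_unbounded_of_one_lt _ (by norm_num)
  rw [div_lt_iff₀ (by positivity)] at hj
  obtain ⟨P, hP⟩ : ∃ P : ℝ, P = 2 ^ j := ⟨_, rfl⟩
  have hP0 : 0 < P := by rw [hP]; positivity
  have hP1 : 1 ≤ P := by rw [hP]; exact one_le_pow₀ (by norm_num)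
  rw [← hP] at hj
  obtain ⟨J1, hJ1⟩ := hbt κ N j (ε / 8) hκ0 hN1 (by positivity)
  obtain ⟨J2, hJ2⟩ := hbt' (κ * (1 + θ)) N j (ε / 8) (by positivity) hN1 (by positivity)
  refine ⟨max J1 J2, fun J hJ J' hJ' => ?_⟩
  have u1 := (hJ1 J (le_trans (le_max_left _ _) hJ)).1
  have u2 := (hJ2 J' (le_trans (le_max_right _ _) hJ')).2
  rw [← hP] at u1 u2
  have hmono : MM G N.factorial j (κ * P ^ D + K * P ^ (D - 1)) ≤
      MM G N.factorial j (κ * (1 + θ) * P ^ D - K * P ^ (D - 1) - 1) := by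
    refine MM_mono G _ _ ?_
    obtain ⟨d, rfl⟩ : ∃ d, D = d + 1 := ⟨D - 1, by omega⟩
    rw [Nat.add_sub_cancel]
    have hPd : 1 ≤ P ^ d := one_le_pow₀ hP1
    have h1 : (2 * K + 1) * P ^ d ≤ P * (κ * θ) * P ^ d :=
      mul_le_mul_of_nonneg_right hj.le (by positivity)
    have h2 : κ * (1 + θ) * P ^ (d + 1) = κ * P ^ (d + 1) + P * (κ * θ) * P ^ d := by
      rw [pow_succ]
      ring
    rw [h2]
    nlinarith
  obtain ⟨X, hX⟩ : ∃ X : ℝ, X = MM G N.factorial j (κ * P ^ D + K * P ^ (D - 1)) / (2 * κ) :=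
    ⟨_, rfl⟩
  rw [← hX] at u1
  have hX2 : X / (1 + θ) ≤
      MM G N.factorial j (κ * (1 + θ) * P ^ D - K * P ^ (D - 1) - 1) / (2 * (κ * (1 + θ))) := by
    rw [hX, div_div, mul_assoc 2 κ]
    exact div_le_div_of_nonneg_right hmono (by positivity)
  have v1 : C * (κ + 1 / N) ≤ ε / 8 := by
    have : C * (κ + 1 / N) ≤ C * (κ + κ) := mul_le_mul_of_nonneg_left (by linarith) hC
    linarith
  have v2 : C' * (κ * (1 + θ) + 1 / N) ≤ 3 * ε / 16 := by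
    have h1 : κ * (1 + θ) ≤ κ * 2 := mul_le_mul_of_nonneg_left (by linarith) hκ0.le
    have : C' * (κ * (1 + θ) + 1 / N) ≤ C' * (κ * 2 + κ) :=
      mul_le_mul_of_nonneg_left (by linarith) hC'
    linarith
  have w1 : X / (1 + θ) ≤ aa G E t' J' + 5 * ε / 16 := by linarith
  rw [div_le_iff₀ (by positivity)] at w1
  have w2 := hBb J'
  have w3 : (aa G E t' J' + 5 * ε / 16) * (1 + θ) ≤ aa G E t' J' + 5 * ε / 16 + ε / 4 := by
    have h1 : (aa G E t' J' + 5 * ε / 16) * (1 + θ) =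
        (aa G E t' J' + 5 * ε / 16) + θ * (aa G E t' J' + 5 * ε / 16) := by ring
    rw [h1]
    have h2 : θ * (aa G E t' J' + 5 * ε / 16) ≤ θ * (B + 1) :=
      mul_le_mul_of_nonneg_left (by linarith) hθ0.le
    linarith
  show aa G E t J ≤ aa G E t' J' + ε0
  linarith

end

end Pool.Agent.helper613_wm
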