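import Pool.Agent.helper613_wm.W7

/-! Statements of the parts of the asymptotic formula. -/

namespace Pool.Agent.helper613_wm

open Finset Filter Topology Pool.Agent.helper132_hp

/-- from cubes with dyadic side to all cubes -/
def S_CUBE : Prop := ∀ (s k : ℕ) (A : Matrix (Fin s) (Fin s) ℤ) (E : ℕ) (c : ℝ), 1 ≤ k → 2 ≤ E →
  (∀ t : ℕ, 1 ≤ t → Tendsto (fun j : ℕ =>
    (N0 (G1 A k) (fun _ => -(t : ℤ)) (fun _ => (t : ℤ)) j : ℝ) / ((t : ℝ) * 2 ^ j) ^ E)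
      atTop (𝓝 c)) →
  Tendsto (fun m : ℕ => ((Zf A k m).card : ℝ) / (m : ℝ) ^ E) atTop (𝓝 c)

/-- from all zeros to primitive zeros (Moebius inversion) -/
def S_MOB : Prop := ∀ (s k : ℕ) (A : Matrix (Fin s) (Fin s) ℤ) (E : ℕ) (c C : ℝ), 1 ≤ k → 2 ≤ E →
  (∀ m : ℕ, 1 ≤ m → ((Zf A k m).card : ℝ) ≤ C * (m : ℝ) ^ E) →
  Tendsto (fun m : ℕ => ((Zf A k m).card : ℝ) / (m : ℝ) ^ E) atTop (𝓝 c) →
  ∃ c' : ℝ, Tendsto (fun m : ℕ => ((Pf A k m).card : ℝ) / (m : ℝ) ^ E) atTop (𝓝 c')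

/-- from primitive integer vectors to rational points -/
def S_PTS : Prop := ∀ (s k : ℕ) (A : Matrix (Fin s) (Fin s) ℤ) (E : ℕ) (c : ℝ), 1 ≤ k → 2 ≤ E →
  Tendsto (fun m : ℕ => ((Pf A k m).card : ℝ) / (m : ℝ) ^ E) atTop (𝓝 c) →
  Tendsto (fun B : ℝ => ((Pts A k B).ncard : ℝ) / B ^ E) atTop (𝓝 (c / 2))

end Pool.Agent.helper613_wm
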