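import Pool.Agent.helper613_wm.W8
import Pool.Agent.helper613_wm.W9
import Pool.Agent.helper613_wm.W14

/-! The asymptotic formula: assembly. -/

namespace Pool.Agent.helper613_wm

open Finset Filter Topology Pool.Agent.helper132_hp

variable {s : ℕ}

/-- smoothness over every field of characteristic zero. -/
theorem smooth_field {K : Type} [Field K] [CharZero K] (A : Matrix (Fin s) (Fin s) ℤ)
    (hA : A.IsSymm) (k : ℕ) (hk : 1 ≤ k)
    (hprin : ∀ T : Finset (Fin s), T.Nonempty →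
      (A.submatrix (fun i : T => (i : Fin s)) (fun i : T => (i : Fin s))).det ≠ 0)
    (y : Fin s → K) (h : ∀ l, MvPolynomial.aeval y (MvPolynomial.pderiv l (G1 A k)) = 0) :
    y = 0 := by
  classical
  by_contra hy
  obtain ⟨i0, hi0⟩ : ∃ i, y i ≠ 0 := by
    by_contra h'
    push Not at h'
    exact hy (funext h')
  obtain ⟨T, hT⟩ : ∃ T : Finset (Fin s), T = Finset.univ.filter (fun i => y i ≠ 0) := ⟨_, rfl⟩
  have hTm : ∀ i, i ∈ T ↔ y i ≠ 0 := by
    intro i
    rw [hT]
    simp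
  have hne : T.Nonempty := ⟨i0, (hTm i0).2 hi0⟩
  have hrow : ∀ l ∈ T, ∑ j, (A l j : K) * y j ^ k = 0 := by
    intro l hl
    have h1 := h l
    rw [aeval_pderiv_G1] at h1
    have h2 : ∑ i, (A i l : K) * y i ^ k = ∑ j, (A l j : K) * y j ^ k :=
      Finset.sum_congr rfl fun i _ => by rw [hA.apply l i]
    rw [h2, ← two_mul] at h1
    have h3 : (k : K) * y l ^ (k - 1) ≠ 0 := by
      refine mul_ne_zero ?_ (pow_ne_zero _ ((hTm l).1 hl))
      exact_mod_cast (by omega : k ≠ 0)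
    rcases mul_eq_zero.1 h1 with h4 | h4
    · norm_num at h4
    · rcases mul_eq_zero.1 h4 with h5 | h5
      · exact absurd h5 h3
      · exact h5
  have hdet : ((A.submatrix (fun i : T => (i : Fin s)) (fun i : T => (i : Fin s))).map
      (Int.castRingHom K)).det ≠ 0 := by
    rw [← RingHom.mapMatrix_apply, ← RingHom.map_det]
    have := hprin T hne
    simpa using this
  have hmv : ((A.submatrix (fun i : T => (i : Fin s)) (fun i : T => (i : Fin s))).map
      (Int.castRingHom K)).mulVec (fun j : T => y j ^ k) = 0 := by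
    funext l
    rw [Pi.zero_apply, ← hrow l l.2]
    unfold Matrix.mulVec dotProduct
    have h1 : ∑ j, (A l j : K) * y j ^ k = ∑ j ∈ T, (A l j : K) * y j ^ k := by
      symm
      refine Finset.sum_subset (Finset.subset_univ T) ?_
      intro j _ hj
      have : y j = 0 := by
        by_contra h'
        exact hj ((hTm j).2 h')
      rw [this, zero_pow (by omega), mul_zero]
    rw [h1, ← Finset.sum_coe_sort T]
    rfl
  have h0 := Matrix.eq_zero_of_mulVec_eq_zero hdet hmv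
  have h1 := congrFun h0 ⟨i0, (hTm i0).2 hi0⟩
  simp only [Pi.zero_apply] at h1
  exact hi0 (by simpa using (pow_eq_zero_iff (by omega)).1 h1)

/-- nonzero real and `p`-adic zeros. -/
def LocSol (A : Matrix (Fin s) (Fin s) ℤ) (k : ℕ) : Prop :=
  (∃ y : Fin s → ℝ, y ≠ 0 ∧ MvPolynomial.aeval y (G1 A k) = 0) ∧
  ∀ (p : ℕ) [Fact p.Prime], ∃ z : Fin s → ℤ_[p], z ≠ 0 ∧ MvPolynomial.aeval z (G1 A k) = 0

theorem pdens_of_zero (A : Matrix (Fin s) (Fin s) ℤ) (hA : A.IsSymm) (k : ℕ) (hk : 1 ≤ k)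
    (hprin : ∀ T : Finset (Fin s), T.Nonempty →
      (A.submatrix (fun i : T => (i : Fin s)) (fun i : T => (i : Fin s))).det ≠ 0)
    (hz : ∀ (p : ℕ) [Fact p.Prime], ∃ z : Fin s → ℤ_[p], z ≠ 0 ∧
      MvPolynomial.aeval z (G1 A k) = 0) : PDens (G1 A k) := by
  intro p hp
  have : Fact p.Prime := ⟨hp⟩
  obtain ⟨z, hz0, hz1⟩ := hz p
  refine t_HEN (Fin s) (G1 A k) p z hz1 ?_
  by_contra h
  push Not at h
  apply hz0
  have h1 := smooth_field A hA k hk hprin (fun i => ((z i : ℤ_[p]) : ℚ_[p])) (by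
    intro l
    have h2 := h l
    rw [aeval_pderiv_G1] at h2 ⊢
    have h3 := congrArg (fun x : ℤ_[p] => (x : ℚ_[p])) h2
    push_cast [PadicInt.coe_sum] at h3
    exact h3)
  funext i
  have := congrFun h1 i
  simpa using this

theorem padic_zero (A : Matrix (Fin s) (Fin s) ℤ) (hA : A.IsSymm) (k : ℕ) (hk : 1 ≤ k)
    (hdet : A.det ≠ 0) (hs : 10 ^ 35 * k ^ 65 ≤ s) (p : ℕ) [Fact p.Prime] :
    ∃ z : Fin s → ℤ_[p], z ≠ 0 ∧ MvPolynomial.aeval z (G1 A k) = 0 := by
  obtain ⟨z, hz0, l, hz1⟩ := t_PAD (t_AS t_NORM t_GREEDY t_CNT t_PERT) p k hk s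
    ((sp_le k hk).trans hs) A hA hdet
  refine ⟨z, ?_, hz0⟩
  intro h
  apply hz1
  rw [aeval_pderiv_G1, h]
  simp [zero_pow (show k ≠ 0 by omega)]

/-- a rational point gives real and `p`-adic points. -/
theorem locSol_of_pts (A : Matrix (Fin s) (Fin s) ℤ) (k : ℕ) (B : ℝ)
    (h : (Pts A k B).Nonempty) : LocSol A k := by
  obtain ⟨P, hP, _⟩ := h
  obtain ⟨x, hx0, _, hx2⟩ := exists_prim P
  rw [hx2, rep_iff] at hP
  have hne : ∃ i, x i ≠ 0 := by
    by_contra h'
    push Not at h'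
    apply hx0
    funext i
    rw [h' i]
    simp
  obtain ⟨i0, hi0⟩ := hne
  rw [eval_G1'] at hP
  constructor
  · refine ⟨fun i => (x i : ℝ), ?_, ?_⟩
    · intro h'
      have := congrFun h' i0
      exact hi0 (by simpa using this)
    · rw [aeval_G1']
      exact_mod_cast hP
  · intro p _
    refine ⟨fun i => (x i : ℤ_[p]), ?_, ?_⟩
    · intro h'
      have := congrFun h' i0
      exact hi0 (by simpa using this)
    · rw [aeval_G1']
      exact_mod_cast hP

theorem main2 (hC : S_CUBE) (hM : S_MOB) (hP : S_PTS) (k : ℕ) (hk : 1 ≤ k) (s : ℕ)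
    (A : Matrix (Fin s) (Fin s) ℤ) (hA : A.IsSymm)
    (I J : Fin (3000 * k ^ 5) → Fin s) (hI : Function.Injective I) (hJ : Function.Injective J)
    (hIJ : ∀ i j, I i ≠ J j) (hdet : (A.submatrix I J).det ≠ 0)
    (hprin : ∀ T : Finset (Fin s), T.Nonempty →
      (A.submatrix (fun i : T => (i : Fin s)) (fun i : T => (i : Fin s))).det ≠ 0) :
    ∃ c : ℝ, 0 ≤ c ∧
      Tendsto (fun B : ℝ => ((Pts A k B).ncard : ℝ) / B ^ (s - 2 * k)) atTop (𝓝 c) ∧
      (0 < c ↔ LocSol A k) := by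
  have hcard : 3000 * k ^ 5 ≤ s := by
    have := Fintype.card_le_of_injective I hI
    rwa [Fintype.card_fin, Fintype.card_fin] at this
  have hk5 : k ≤ k ^ 5 := Nat.le_self_pow (by norm_num) k
  have hs2 : 2 * k + 2 ≤ s := by omega
  have hcrt : ∀ t : ℕ, 1 ≤ t → Crude (G1 A k) (2 * k) (fun _ => -(t : ℤ)) (fun _ => (t : ℤ)) := by
    intro t ht
    refine t_C1 t_MV t_VL k hk s A hA I J hI hJ hIJ hdet _ _ (fun _ => ?_)
    have : (1 : ℤ) ≤ t := by exact_mod_cast ht
    omega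
  have hcr : Crude (G1 A k) (2 * k) (fun _ => -1) (fun _ => 1) :=
    t_C1 t_MV t_VL k hk s A hA I J hI hJ hIJ hdet (fun _ => -1) (fun _ => 1)
      (fun _ => by norm_num)
  obtain ⟨c0, hc0⟩ := aa_limit (G1 A k) (2 * k) (s - 2 * k) (by omega)
    (by rw [Fintype.card_fin]; omega) (homog_G1 A k) hcrt
  have hE2 : 2 ≤ s - 2 * k := by omega
  have h1 := hC s k A (s - 2 * k) c0 hk hE2 (fun t ht => hc0 t ht)
  obtain ⟨C, _, hZ⟩ := card_Zf A k hk (by omega) hcr
  obtain ⟨c1, h2⟩ := hM s k A (s - 2 * k) c0 C hk hE2 hZ h1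
  have h3 := hP s k A (s - 2 * k) c1 hk hE2 h2
  refine ⟨c1 / 2, ?_, h3, ?_, ?_⟩
  · refine ge_of_tendsto' h3 fun B => ?_
    rcases Nat.even_or_odd (s - 2 * k) with he | ho
    · exact div_nonneg (by positivity) (he.pow_nonneg B)
    · rcases le_or_gt 0 B with hB | hB
      · positivity
      · have : Pts A k B = ∅ := by
          rw [Set.eq_empty_iff_forall_notMem]
          rintro P ⟨_, hPB⟩
          have := Projectivization.mulHeight_pos P
          linarith
        rw [this]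
        simp
  · intro hc
    have h4 := h3.eventually (eventually_gt_nhds hc)
    obtain ⟨B, hB⟩ := h4.exists
    apply locSol_of_pts A k B
    rw [Set.nonempty_iff_ne_empty]
    intro h
    rw [h] at hB
    simp at hB
  · rintro ⟨⟨y, hy, hy0⟩, hpad⟩
    obtain ⟨c, hc, B0, hB0⟩ := lower A k hk hs2 hcr (N0_lower (G1 A k) (2 * k) (by omega)
      (homog_G1 A k) (fun _ => -1) (fun _ => 1) (fun _ => by norm_num) hcr
      (realSm A hA k hk hprin y hy hy0) (pdens_of_zero A hA k hk hprin hpad))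
    refine lt_of_lt_of_le hc (ge_of_tendsto h3 ?_)
    filter_upwards [Filter.eventually_ge_atTop (max B0 1)] with B hB
    have hB1 : (0 : ℝ) < B := lt_of_lt_of_le one_pos (le_trans (le_max_right _ _) hB)
    rw [le_div_iff₀ (by positivity)]
    exact hB0 B (le_trans (le_max_left _ _) hB)

end Pool.Agent.helper613_wm
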