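import Pool.Agent.helper613_wm.W15

/-! Smoothness as a hypothesis. -/

namespace Pool.Agent.helper613_wm

open Finset Filter Topology Pool.Agent.helper132_hp

variable {s : ℕ}

/-- for `k ≥ 2` smoothness implies that the principal minors are nonzero. -/
theorem minors_of_smooth (A : Matrix (Fin s) (Fin s) ℤ) (hA : A.IsSymm) (k : ℕ) (hk : 2 ≤ k)
    (hS : ∀ y : Fin s → ℂ, (∀ l, MvPolynomial.aeval y (MvPolynomial.pderiv l (G1 A k)) = 0) →
      y = 0) (T : Finset (Fin s)) :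
    (A.submatrix (fun i : T => (i : Fin s)) (fun i : T => (i : Fin s))).det ≠ 0 := by
  classical
  intro hdet
  have hdet' : ((A.submatrix (fun i : T => (i : Fin s)) (fun i : T => (i : Fin s))).map
      (Int.castRingHom ℂ)).det = 0 := by
    rw [← RingHom.mapMatrix_apply, ← RingHom.map_det, hdet, map_zero]
  obtain ⟨v, hv0, hv⟩ := Matrix.exists_mulVec_eq_zero_iff.2 hdet'
  have hroot : ∀ i : T, ∃ z : ℂ, z ^ k = v i := fun i =>
    IsAlgClosed.exists_pow_nat_eq (v i) (by omega)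
  choose r hr using hroot
  obtain ⟨y, hy⟩ : ∃ y : Fin s → ℂ, y = fun i => if h : i ∈ T then r ⟨i, h⟩ else 0 := ⟨_, rfl⟩
  have hyT : ∀ i : T, y i = r i := by
    intro i
    rw [hy]
    simp
  have hyn : ∀ i, i ∉ T → y i = 0 := by
    intro i hi
    rw [hy]
    simp [hi]
  have hrow : ∀ l ∈ T, ∑ j, (A l j : ℂ) * y j ^ k = 0 := by
    intro l hl
    have h1 : ∑ j, (A l j : ℂ) * y j ^ k = ∑ j ∈ T, (A l j : ℂ) * y j ^ k := by
      symm
      refine Finset.sum_subset (Finset.subset_univ T) ?_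
      intro j _ hj
      rw [hyn j hj, zero_pow (by omega), mul_zero]
    rw [h1, ← Finset.sum_coe_sort T]
    have h2 := congrFun hv ⟨l, hl⟩
    rw [Pi.zero_apply] at h2
    rw [← h2]
    unfold Matrix.mulVec dotProduct
    refine Finset.sum_congr rfl fun j _ => ?_
    rw [hyT j, hr j]
    rfl
  have h0 := hS y (by
    intro l
    rw [aeval_pderiv_G1]
    by_cases hl : l ∈ T
    · have h2 : ∑ i, (A i l : ℂ) * y i ^ k = ∑ j, (A l j : ℂ) * y j ^ k :=
        Finset.sum_congr rfl fun i _ => by rw [hA.apply l i]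
      rw [h2, hrow l hl]
      simp
    · rw [hyn l hl, zero_pow (by omega)]
      simp)
  apply hv0
  funext i
  rw [← hr i, ← hyT i, h0, Pi.zero_apply, Pi.zero_apply, zero_pow (by omega)]

/-- for `k = 1` smoothness implies that the determinant is nonzero. -/
theorem det_of_smooth (A : Matrix (Fin s) (Fin s) ℤ) (hA : A.IsSymm)
    (hS : ∀ y : Fin s → ℂ, (∀ l, MvPolynomial.aeval y (MvPolynomial.pderiv l (G1 A 1)) = 0) →
      y = 0) : A.det ≠ 0 := by
  intro hdet
  have hdet' : (A.map (Int.castRingHom ℂ)).det = 0 := by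
    rw [← RingHom.mapMatrix_apply, ← RingHom.map_det, hdet, map_zero]
  obtain ⟨v, hv0, hv⟩ := Matrix.exists_mulVec_eq_zero_iff.2 hdet'
  apply hv0
  refine hS v fun l => ?_
  rw [aeval_pderiv_G1]
  have h2 : ∑ i, (A i l : ℂ) * v i ^ 1 = ∑ j, (A l j : ℂ) * v j ^ 1 :=
    Finset.sum_congr rfl fun i _ => by rw [hA.apply l i]
  have h3 : ∑ j, (A l j : ℂ) * v j ^ 1 = 0 := by
    have h4 := congrFun hv l
    rw [Pi.zero_apply] at h4
    rw [← h4]
    unfold Matrix.mulVec dotProduct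
    refine Finset.sum_congr rfl fun j _ => ?_
    rw [pow_one]
    rfl
  rw [h2, h3]
  simp

/-- smoothness over every field of characteristic zero. -/
theorem smooth_transfer {K : Type} [Field K] [CharZero K] (A : Matrix (Fin s) (Fin s) ℤ)
    (hA : A.IsSymm) (k : ℕ) (hk : 1 ≤ k)
    (hS : ∀ y : Fin s → ℂ, (∀ l, MvPolynomial.aeval y (MvPolynomial.pderiv l (G1 A k)) = 0) →
      y = 0) (y : Fin s → K)
    (h : ∀ l, MvPolynomial.aeval y (MvPolynomial.pderiv l (G1 A k)) = 0) : y = 0 := by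
  rcases Nat.lt_or_ge 1 k with hk2 | hk1
  · exact smooth_field A hA k hk (fun T _ => minors_of_smooth A hA k hk2 hS T) y h
  · obtain rfl : k = 1 := by omega
    have hdet : (A.map (Int.castRingHom K)).det ≠ 0 := by
      rw [← RingHom.mapMatrix_apply, ← RingHom.map_det]
      have := det_of_smooth A hA hS
      simpa using this
    refine Matrix.eq_zero_of_mulVec_eq_zero hdet ?_
    funext l
    have h1 := h l
    rw [aeval_pderiv_G1] at h1
    have h2 : ∑ i, (A i l : K) * y i ^ 1 = ∑ j, (A l j : K) * y j ^ 1 :=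
      Finset.sum_congr rfl fun i _ => by rw [hA.apply l i]
    rw [h2, ← two_mul] at h1
    have h3 : ∑ j, (A l j : K) * y j ^ 1 = 0 := by
      simpa using h1
    rw [Pi.zero_apply, ← h3]
    unfold Matrix.mulVec dotProduct
    refine Finset.sum_congr rfl fun j _ => ?_
    rw [pow_one]
    rfl

theorem realSm' (A : Matrix (Fin s) (Fin s) ℤ) (hA : A.IsSymm) (k : ℕ) (hk : 1 ≤ k)
    (hS : ∀ y : Fin s → ℂ, (∀ l, MvPolynomial.aeval y (MvPolynomial.pderiv l (G1 A k)) = 0) →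
      y = 0)
    (y : Fin s → ℝ) (hy : y ≠ 0) (hy0 : MvPolynomial.aeval y (G1 A k) = 0) :
    RealSm (G1 A k) (fun _ => -1) (fun _ => 1) := by
  obtain ⟨t, ht⟩ : ∃ t : ℝ, t = 1 / (1 + ∑ i, |y i|) := ⟨_, rfl⟩
  have hsum : 0 ≤ ∑ i, |y i| := Finset.sum_nonneg fun i _ => abs_nonneg _
  have ht0 : 0 < t := by rw [ht]; positivity
  have hty : ∀ i, |t * y i| < 1 := by
    intro i
    rw [abs_mul, abs_of_pos ht0, ht, one_div, inv_mul_lt_iff₀ (by linarith)]
    have := Finset.single_le_sum (f := fun i => |y i|) (fun i _ => abs_nonneg _) (Finset.mem_univ i)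
    linarith
  have hne : (fun i => t * y i) ≠ 0 := by
    intro h
    apply hy
    funext i
    have := congrFun h i
    simp only [Pi.zero_apply, mul_eq_zero] at this
    exact this.resolve_left ht0.ne'
  obtain ⟨l, hl⟩ : ∃ l, MvPolynomial.aeval (fun i => t * y i) (MvPolynomial.pderiv l (G1 A k)) ≠ 0 := by
    by_contra h
    push Not at h
    exact hne (smooth_transfer A hA k hk hS _ h)
  refine ⟨fun i => t * y i, fun i => ?_, ?_, l, hl⟩
  · have := abs_lt.1 (hty i)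
    push_cast
    exact this
  · rw [aeval_G1'] at hy0 ⊢
    have h1 : ∑ i, ∑ j, (A i j : ℝ) * (t * y i) ^ k * (t * y j) ^ k =
        t ^ (2 * k) * ∑ i, ∑ j, (A i j : ℝ) * y i ^ k * y j ^ k := by
      rw [Finset.mul_sum]
      refine Finset.sum_congr rfl fun i _ => ?_
      rw [Finset.mul_sum]
      refine Finset.sum_congr rfl fun j _ => ?_
      rw [mul_pow, mul_pow, two_mul, pow_add]
      ring
    rw [h1, hy0, mul_zero]

theorem pdens_of_zero' (A : Matrix (Fin s) (Fin s) ℤ) (hA : A.IsSymm) (k : ℕ) (hk : 1 ≤ k)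
    (hS : ∀ y : Fin s → ℂ, (∀ l, MvPolynomial.aeval y (MvPolynomial.pderiv l (G1 A k)) = 0) →
      y = 0)
    (hz : ∀ (p : ℕ) [Fact p.Prime], ∃ z : Fin s → ℤ_[p], z ≠ 0 ∧
      MvPolynomial.aeval z (G1 A k) = 0) : PDens (G1 A k) := by
  intro p hp
  have : Fact p.Prime := ⟨hp⟩
  obtain ⟨z, hz0, hz1⟩ := hz p
  refine t_HEN (Fin s) (G1 A k) p z hz1 ?_
  by_contra h
  push Not at h
  apply hz0
  have h1 := smooth_transfer A hA k hk hS (fun i => ((z i : ℤ_[p]) : ℚ_[p])) (by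
    intro l
    have h2 := h l
    rw [aeval_pderiv_G1] at h2 ⊢
    have h3 := congrArg (fun x : ℤ_[p] => (x : ℚ_[p])) h2
    push_cast [PadicInt.coe_sum] at h3
    exact h3)
  funext i
  have := congrFun h1 i
  simpa using this

/-- rational points of anticanonical height at most `B`. -/
def PtsA (A : Matrix (Fin s) (Fin s) ℤ) (k : ℕ) (B : ℝ) : Set (Projectivization ℚ (Fin s → ℚ)) :=
  {P | MvPolynomial.aeval P.rep (G1 A k) = 0 ∧ P.mulHeight ^ (s - 2 * k) ≤ B}

theorem PtsA_eq (A : Matrix (Fin s) (Fin s) ℤ) (k : ℕ) (hs : 2 * k + 2 ≤ s) (B : ℝ) (hB : 0 ≤ B) :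
    PtsA A k B = Pts A k (B ^ (1 / ((s - 2 * k : ℕ) : ℝ))) := by
  have hE : s - 2 * k ≠ 0 := by omega
  ext P
  unfold PtsA Pts
  simp only [Set.mem_setOf_eq]
  refine and_congr_right fun _ => ?_
  have hP : 0 ≤ P.mulHeight := (Projectivization.mulHeight_pos P).le
  have h1 : 0 ≤ B ^ (1 / ((s - 2 * k : ℕ) : ℝ)) := Real.rpow_nonneg hB _
  have h2 : (B ^ (1 / ((s - 2 * k : ℕ) : ℝ))) ^ (s - 2 * k) = B := by
    rw [one_div]
    exact Real.rpow_inv_natCast_pow hB hE
  constructor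
  · intro h
    refine le_of_pow_le_pow_left₀ hE h1 ?_
    rw [h2]
    exact h
  · intro h
    calc P.mulHeight ^ (s - 2 * k) ≤ (B ^ (1 / ((s - 2 * k : ℕ) : ℝ))) ^ (s - 2 * k) :=
          pow_le_pow_left₀ hP h _
      _ = B := h2

theorem main3 (hC : S_CUBE) (hM : S_MOB) (hP : S_PTS) (k : ℕ) (hk : 1 ≤ k) (s : ℕ)
    (A : Matrix (Fin s) (Fin s) ℤ) (hA : A.IsSymm)
    (I J : Fin (3000 * k ^ 5) → Fin s) (hI : Function.Injective I) (hJ : Function.Injective J)
    (hIJ : ∀ i j, I i ≠ J j) (hdet : (A.submatrix I J).det ≠ 0) :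
    ∃ c : ℝ, 0 ≤ c ∧
      Tendsto (fun B : ℝ => ((PtsA A k B).ncard : ℝ) / B) atTop (𝓝 c) ∧
      ((∀ y : Fin s → ℂ, (∀ l, MvPolynomial.aeval y (MvPolynomial.pderiv l (G1 A k)) = 0) →
        y = 0) → (0 < c ↔ LocSol A k)) := by
  have hcard : 3000 * k ^ 5 ≤ s := by
    have := Fintype.card_le_of_injective I hI
    rwa [Fintype.card_fin, Fintype.card_fin] at this
  have hk5 : k ≤ k ^ 5 := Nat.le_self_pow (by norm_num) k
  have hs2 : 2 * k + 2 ≤ s := by omega
  have hcrt : ∀ t : ℕ, 1 ≤ t → Crude (G1 A k) (2 * k) (fun _ => -(t : ℤ)) (fun _ => (t : ℤ)) := by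
    intro t ht
    refine t_C1 t_MV t_VL k hk s A hA I J hI hJ hIJ hdet _ _ (fun _ => ?_)
    have : (1 : ℤ) ≤ t := by exact_mod_cast ht
    omega
  have hcr : Crude (G1 A k) (2 * k) (fun _ => -1) (fun _ => 1) :=
    t_C1 t_MV t_VL k hk s A hA I J hI hJ hIJ hdet (fun _ => -1) (fun _ => 1)
      (fun _ => by norm_num)
  obtain ⟨c0, hc0⟩ := aa_limit (G1 A k) (2 * k) (s - 2 * k) (by omega)
    (by rw [Fintype.card_fin]; omega) (homog_G1 A k) hcrt
  have hE2 : 2 ≤ s - 2 * k := by omega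
  have h1 := hC s k A (s - 2 * k) c0 hk hE2 (fun t ht => hc0 t ht)
  obtain ⟨C, _, hZ⟩ := card_Zf A k hk (by omega) hcr
  obtain ⟨c1, h2⟩ := hM s k A (s - 2 * k) c0 C hk hE2 hZ h1
  have h3 := hP s k A (s - 2 * k) c1 hk hE2 h2
  refine ⟨c1 / 2, ?_, ?_, fun hS => ⟨?_, ?_⟩⟩
  · refine ge_of_tendsto h3 ?_
    filter_upwards [Filter.eventually_ge_atTop 0] with B hB
    positivity
  · have hE0 : (0 : ℝ) < 1 / ((s - 2 * k : ℕ) : ℝ) := by
      have : (0 : ℝ) < ((s - 2 * k : ℕ) : ℝ) := by exact_mod_cast (by omega : 0 < s - 2 * k)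
      positivity
    have h4 := h3.comp (tendsto_rpow_atTop hE0)
    refine h4.congr' ?_
    filter_upwards [Filter.eventually_ge_atTop 0] with B hB
    simp only [Function.comp_apply]
    rw [PtsA_eq A k hs2 B hB, one_div, Real.rpow_inv_natCast_pow hB (by omega)]
  · intro hc
    have h4 := h3.eventually (eventually_gt_nhds hc)
    obtain ⟨B, hB⟩ := h4.exists
    apply locSol_of_pts A k B
    rw [Set.nonempty_iff_ne_empty]
    intro h
    rw [h] at hB
    simp at hB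
  · rintro ⟨⟨y, hy, hy0⟩, hpad⟩
    obtain ⟨c, hc, B0, hB0⟩ := lower A k hk hs2 hcr (N0_lower (G1 A k) (2 * k) (by omega)
      (homog_G1 A k) (fun _ => -1) (fun _ => 1) (fun _ => by norm_num) hcr
      (realSm' A hA k hk hS y hy hy0) (pdens_of_zero' A hA k hk hS hpad))
    refine lt_of_lt_of_le hc (ge_of_tendsto h3 ?_)
    filter_upwards [Filter.eventually_ge_atTop (max B0 1)] with B hB
    have hB1 : (0 : ℝ) < B := lt_of_lt_of_le one_pos (le_trans (le_max_right _ _) hB)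
    rw [le_div_iff₀ (by positivity)]
    exact hB0 B (le_trans (le_max_left _ _) hB)

/-- for large `s` the zeros over `ℤ_p` always exist. -/
theorem padic_auto (A : Matrix (Fin s) (Fin s) ℤ) (hA : A.IsSymm) (k : ℕ) (hk : 1 ≤ k)
    (hS : ∀ y : Fin s → ℂ, (∀ l, MvPolynomial.aeval y (MvPolynomial.pderiv l (G1 A k)) = 0) →
      y = 0) (hs : 10 ^ 35 * k ^ 65 ≤ s) (p : ℕ) [Fact p.Prime] :
    ∃ z : Fin s → ℤ_[p], z ≠ 0 ∧ MvPolynomial.aeval z (G1 A k) = 0 := by
  have hs0 : 0 < s := lt_of_lt_of_le (by positivity) hs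
  have hdet : A.det ≠ 0 := by
    rcases Nat.lt_or_ge 1 k with hk2 | hk1
    · exact det_ne A hs0 (fun T _ => minors_of_smooth A hA k hk2 hS T)
    · obtain rfl : k = 1 := by omega
      exact det_of_smooth A hA hS
  exact padic_zero A hA k hk hdet hs p

end Pool.Agent.helper613_wm
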