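import Pool.Agent.helper613_wm.W9

/-! From cubes with dyadic side to all cubes. -/

namespace Pool.Agent.helper613_wm

open Finset Filter Topology Pool.Agent.helper132_hp

variable {s : ℕ}

theorem eval_zero_G1 (A : Matrix (Fin s) (Fin s) ℤ) (k : ℕ) (hk : 1 ≤ k) :
    MvPolynomial.eval (0 : Fin s → ℤ) (G1 A k) = 0 := by
  rw [eval_G1']
  have : k ≠ 0 := by omega
  simp [this]

theorem cube_lower (A : Matrix (Fin s) (Fin s) ℤ) (k : ℕ) (m j t : ℕ)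
    (h : 2 ^ j * t ≤ m) :
    N0 (G1 A k) (fun _ => -(t : ℤ)) (fun _ => (t : ℤ)) j ≤ (Zf A k m).card + 1 := by
  classical
  unfold N0
  have hsub : ((Pool.Agent.helper132_hp.box (fun _ => -(t : ℤ)) (fun _ => (t : ℤ)) j).filter
      fun z : Fin s → ℤ => MvPolynomial.eval z (G1 A k) = 0) ⊆ insert 0 (Zf A k m) := by
    intro x hx
    rw [Finset.mem_filter] at hx
    by_cases hx0 : x = 0
    · rw [hx0]; exact Finset.mem_insert_self _ _
    · refine Finset.mem_insert_of_mem ?_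
      rw [mem_Zf]
      refine ⟨fun i => ?_, hx0, hx.2⟩
      have h1 := hx.1
      unfold Pool.Agent.helper132_hp.box at h1
      rw [Fintype.mem_piFinset] at h1
      have h2 := Finset.mem_Ico.1 (h1 i)
      have h3 : ((2 ^ j * t : ℕ) : ℤ) ≤ (m : ℤ) := by exact_mod_cast h
      push_cast at h3
      rw [abs_le]
      constructor <;> linarith [h2.1, h2.2]
  exact (Finset.card_le_card hsub).trans (Finset.card_insert_le _ _)

theorem cube_upper (A : Matrix (Fin s) (Fin s) ℤ) (k : ℕ) (m j t : ℕ)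
    (h : m < 2 ^ j * (t + 1)) :
    (Zf A k m).card ≤ N0 (G1 A k) (fun _ => -((t + 1 : ℕ) : ℤ)) (fun _ => ((t + 1 : ℕ) : ℤ)) j := by
  classical
  unfold N0
  refine Finset.card_le_card fun x hx => ?_
  rw [mem_Zf] at hx
  refine Finset.mem_filter.2 ⟨?_, hx.2.2⟩
  unfold Pool.Agent.helper132_hp.box
  rw [Fintype.mem_piFinset]
  intro i
  have h1 := abs_le.1 (hx.1 i)
  have h3 : (m : ℤ) < ((2 ^ j * (t + 1) : ℕ) : ℤ) := by exact_mod_cast h
  push_cast at h3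
  rw [Finset.mem_Ico]
  push_cast
  constructor <;> linarith [h1.1, h1.2]

theorem cube_step (A : Matrix (Fin s) (Fin s) ℤ) (k E : ℕ) (c : ℝ) (_hE : 2 ≤ E)
    (hyp : ∀ t : ℕ, 1 ≤ t → Tendsto (fun j : ℕ =>
      (N0 (G1 A k) (fun _ => -(t : ℤ)) (fun _ => (t : ℤ)) j : ℝ) / ((t : ℝ) * 2 ^ j) ^ E)
      atTop (𝓝 c)) (M : ℕ) :
    ∀ᶠ m : ℕ in atTop,
      ((Zf A k m).card : ℝ) / (m : ℝ) ^ E ≤ (c + 1 / 2 ^ M) * (1 + 1 / 2 ^ M) ^ E ∧
      (c - 1 / 2 ^ M) * ((1 + 1 / 2 ^ M) ^ E)⁻¹ ≤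
        ((Zf A k m).card : ℝ) / (m : ℝ) ^ E + 1 / (m : ℝ) ^ E := by
  have hδ : (0 : ℝ) < 1 / 2 ^ M := by positivity
  have hc0 : 0 ≤ c := by
    refine ge_of_tendsto' (hyp 1 le_rfl) fun j => by positivity
  have hev : ∀ᶠ j : ℕ in atTop, ∀ t ∈ (Finset.Icc (2 ^ M) (2 ^ (M + 1)) : Finset ℕ),
      |(N0 (G1 A k) (fun _ => -(t : ℤ)) (fun _ => (t : ℤ)) j : ℝ) / ((t : ℝ) * 2 ^ j) ^ E - c|
        < 1 / 2 ^ M := by
    rw [Finset.eventually_all]
    intro t ht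
    have h1 : 1 ≤ t := le_trans Nat.one_le_two_pow (Finset.mem_Icc.1 ht).1
    have := (hyp t h1).eventually (Metric.ball_mem_nhds c hδ)
    filter_upwards [this] with j hj
    rwa [Real.dist_eq] at hj
  obtain ⟨J, hJ⟩ := eventually_atTop.1 hev
  rw [eventually_atTop]
  refine ⟨2 ^ (J + M), fun m hm => ?_⟩
  have hmpos : 0 < m := lt_of_lt_of_le (by positivity) hm
  have hlog : J + M ≤ Nat.log 2 m := (Nat.le_log_iff_pow_le (by norm_num) hmpos.ne').2 hm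
  obtain ⟨j, hj⟩ : ∃ j, Nat.log 2 m = j + M := ⟨Nat.log 2 m - M, by omega⟩
  have hjJ : J ≤ j := by omega
  have hm1 : 2 ^ (j + M) ≤ m := by
    rw [← hj]; exact Nat.pow_log_le_self 2 hmpos.ne'
  have hm2 : m < 2 ^ (j + M + 1) := by
    rw [← hj]; exact Nat.lt_pow_succ_log_self (by norm_num) _
  obtain ⟨t, ht⟩ : ∃ t, t = m / 2 ^ j := ⟨_, rfl⟩
  have hpj : 0 < 2 ^ j := by positivity
  have ht1 : 2 ^ M ≤ t := by
    rw [ht, Nat.le_div_iff_mul_le hpj, ← pow_add, add_comm]; exact hm1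
  have ht2 : t < 2 ^ (M + 1) := by
    rw [ht, Nat.div_lt_iff_lt_mul hpj, ← pow_add]
    have : M + 1 + j = j + M + 1 := by ring
    rw [this]; exact hm2
  have hlo : 2 ^ j * t ≤ m := by rw [ht]; exact Nat.mul_div_le _ _
  have hhi : m < 2 ^ j * (t + 1) := by rw [ht]; exact Nat.lt_mul_div_succ _ hpj
  have htM : (2 : ℝ) ^ M ≤ t := by exact_mod_cast ht1
  have h2M : (0 : ℝ) < 2 ^ M := by positivity
  have htpos : (0 : ℝ) < t := lt_of_lt_of_le h2M htM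
  have h2j : (0 : ℝ) < 2 ^ j := by positivity
  have hmR : (0 : ℝ) < m := by exact_mod_cast hmpos
  have hloR : (2 : ℝ) ^ j * t ≤ m := by exact_mod_cast hlo
  have hhiR : (m : ℝ) < 2 ^ j * (t + 1) := by exact_mod_cast hhi
  have hρ : (t : ℝ) + 1 ≤ (1 + 1 / 2 ^ M) * t := by
    have : 1 ≤ 1 / 2 ^ M * (t : ℝ) := by
      rw [one_div, inv_mul_eq_div, one_le_div h2M]; exact htM
    linarith
  have hρ0 : (0 : ℝ) < 1 + 1 / 2 ^ M := by positivity
  have hA := hJ j hjJ t (Finset.mem_Icc.2 ⟨ht1, ht2.le⟩)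
  have hB := hJ j hjJ (t + 1) (Finset.mem_Icc.2 ⟨by omega, ht2⟩)
  rw [abs_lt] at hA hB
  have hmE : (0 : ℝ) < (m : ℝ) ^ E := by positivity
  constructor
  · -- upper bound
    have h1 : ((Zf A k m).card : ℝ) ≤ N0 (G1 A k) (fun _ => -((t + 1 : ℕ) : ℤ))
        (fun _ => ((t + 1 : ℕ) : ℤ)) j := by exact_mod_cast cube_upper A k m j t hhi
    have hpos : (0 : ℝ) < (((t + 1 : ℕ) : ℝ) * 2 ^ j) ^ E := by positivity
    have h2 : (N0 (G1 A k) (fun _ => -((t + 1 : ℕ) : ℤ)) (fun _ => ((t + 1 : ℕ) : ℤ)) j : ℝ) ≤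
        (c + 1 / 2 ^ M) * (((t + 1 : ℕ) : ℝ) * 2 ^ j) ^ E := by
      rw [← div_le_iff₀ hpos]; linarith [hB.2]
    have h3 : (((t + 1 : ℕ) : ℝ) * 2 ^ j) ^ E ≤ ((1 + 1 / 2 ^ M) * m) ^ E := by
      refine pow_le_pow_left₀ (by positivity) ?_ _
      push_cast
      calc ((t : ℝ) + 1) * 2 ^ j ≤ (1 + 1 / 2 ^ M) * t * 2 ^ j :=
            mul_le_mul_of_nonneg_right hρ h2j.le
        _ = (1 + 1 / 2 ^ M) * (2 ^ j * t) := by ring
        _ ≤ _ := mul_le_mul_of_nonneg_left hloR hρ0.le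
    rw [div_le_iff₀ hmE]
    calc ((Zf A k m).card : ℝ) ≤ (c + 1 / 2 ^ M) * (((t + 1 : ℕ) : ℝ) * 2 ^ j) ^ E := h1.trans h2
      _ ≤ (c + 1 / 2 ^ M) * ((1 + 1 / 2 ^ M) * m) ^ E :=
          mul_le_mul_of_nonneg_left h3 (by positivity)
      _ = _ := by rw [mul_pow]; ring
  · have h1 : (N0 (G1 A k) (fun _ => -(t : ℤ)) (fun _ => (t : ℤ)) j : ℝ) ≤
        (Zf A k m).card + 1 := by exact_mod_cast cube_lower A k m j t hlo
    have hpos : (0 : ℝ) < ((t : ℝ) * 2 ^ j) ^ E := by positivity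
    have h2 : (c - 1 / 2 ^ M) * ((t : ℝ) * 2 ^ j) ^ E ≤
        (N0 (G1 A k) (fun _ => -(t : ℤ)) (fun _ => (t : ℤ)) j : ℝ) := by
      rw [← le_div_iff₀ hpos]; linarith [hA.1]
    have h3 : (m : ℝ) ^ E ≤ (1 + 1 / 2 ^ M) ^ E * ((t : ℝ) * 2 ^ j) ^ E := by
      rw [← mul_pow]
      refine pow_le_pow_left₀ hmR.le ?_ _
      calc (m : ℝ) ≤ 2 ^ j * (t + 1) := hhiR.le
        _ ≤ 2 ^ j * ((1 + 1 / 2 ^ M) * t) := mul_le_mul_of_nonneg_left hρ h2j.le
        _ = _ := by ring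
    rw [← add_div, le_div_iff₀ hmE]
    rcases le_total (c - 1 / 2 ^ M) 0 with hneg | hnn
    · have : (c - 1 / 2 ^ M) * ((1 + 1 / 2 ^ M) ^ E)⁻¹ * (m : ℝ) ^ E ≤ 0 :=
        mul_nonpos_of_nonpos_of_nonneg
          (mul_nonpos_of_nonpos_of_nonneg hneg (by positivity)) (by positivity)
      exact this.trans (by positivity)
    · calc (c - 1 / 2 ^ M) * ((1 + 1 / 2 ^ M) ^ E)⁻¹ * (m : ℝ) ^ E
          ≤ (c - 1 / 2 ^ M) * ((1 + 1 / 2 ^ M) ^ E)⁻¹ *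
              ((1 + 1 / 2 ^ M) ^ E * ((t : ℝ) * 2 ^ j) ^ E) :=
            mul_le_mul_of_nonneg_left h3 (mul_nonneg hnn (by positivity))
        _ = (c - 1 / 2 ^ M) * ((t : ℝ) * 2 ^ j) ^ E := by
            have : ((1 : ℝ) + 1 / 2 ^ M) ^ E ≠ 0 := by positivity
            field_simp
        _ ≤ _ := h2.trans h1

theorem x_CUBE : S_CUBE := by
  intro s k A E c hk hE hyp
  have hh : Tendsto (fun M : ℕ => (1 : ℝ) / 2 ^ M) atTop (𝓝 0) := by
    simpa [one_div, inv_pow] using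
      tendsto_pow_atTop_nhds_zero_of_lt_one (r := (1 / 2 : ℝ)) (by norm_num) (by norm_num)
  have hup : Tendsto (fun M : ℕ => (c + 1 / 2 ^ M) * (1 + (1 : ℝ) / 2 ^ M) ^ E) atTop (𝓝 c) := by
    have := (hh.const_add c).mul ((hh.const_add 1).pow E)
    simpa using this
  have hlo : Tendsto (fun M : ℕ => (c - 1 / 2 ^ M) * ((1 + (1 : ℝ) / 2 ^ M) ^ E)⁻¹) atTop
      (𝓝 c) := by
    have h1 : Tendsto (fun M : ℕ => (1 + (1 : ℝ) / 2 ^ M) ^ E) atTop (𝓝 1) := by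
      simpa using (hh.const_add 1).pow E
    have := ((tendsto_const_nhds (x := c)).sub hh).mul (h1.inv₀ one_ne_zero)
    simpa using this
  have hm0 : Tendsto (fun m : ℕ => (1 : ℝ) / (m : ℝ) ^ E) atTop (𝓝 0) := by
    have h1 : Tendsto (fun m : ℕ => (m : ℝ) ^ E) atTop atTop :=
      (tendsto_pow_atTop (by omega)).comp tendsto_natCast_atTop_atTop
    have h2 := tendsto_inv_atTop_zero.comp h1
    refine h2.congr fun m => ?_
    simp
  rw [tendsto_order]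
  constructor
  · intro a ha
    obtain ⟨M, hM⟩ := (hlo.eventually (lt_mem_nhds (show (a + c) / 2 < c by linarith))).exists
    have h2 := hm0.eventually (gt_mem_nhds (show (0 : ℝ) < (c - a) / 2 by linarith))
    filter_upwards [cube_step A k E c hE hyp M, h2] with m h3 h4
    linarith [h3.2]
  · intro a ha
    obtain ⟨M, hM⟩ := (hup.eventually (gt_mem_nhds ha)).exists
    filter_upwards [cube_step A k E c hE hyp M] with m h3
    linarith [h3.1]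

end Pool.Agent.helper613_wm
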