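import Pool.Agent.helper613_wm.W9

/-! From all zeros to primitive zeros (Moebius inversion). -/

set_option autoImplicit false

namespace Pool.Agent.helper613_wm

open Finset Filter Topology Pool.Agent.helper132_hp

theorem mob_sum (n : ℕ) :
    ∑ d ∈ n.divisors, ArithmeticFunction.moebius d = if n = 1 then 1 else 0 := by
  rw [← ArithmeticFunction.coe_mul_zeta_apply, ArithmeticFunction.moebius_mul_coe_zeta,
    ArithmeticFunction.one_apply]

theorem mob_scale {s : ℕ} (A : Matrix (Fin s) (Fin s) ℤ) (k : ℕ) (d : ℤ) (y : Fin s → ℤ) :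
    MvPolynomial.eval (fun j => d * y j) (G1 A k) = d ^ (2 * k) * MvPolynomial.eval y (G1 A k) := by
  rw [eval_G1', eval_G1', Finset.mul_sum]
  refine Finset.sum_congr rfl fun i _ => ?_
  rw [Finset.mul_sum]
  refine Finset.sum_congr rfl fun l _ => ?_
  rw [mul_pow, mul_pow, two_mul, pow_add]
  ring

theorem mob_card_dvd {s : ℕ} (A : Matrix (Fin s) (Fin s) ℤ) (k m d : ℕ) (hd : 1 ≤ d) :
    (Zf A k (m / d)).card = ((Zf A k m).filter fun x => ∀ i, (d : ℤ) ∣ x i).card := by
  classical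
  have hd0 : (d : ℤ) ≠ 0 := by exact_mod_cast (by omega : d ≠ 0)
  refine Finset.card_bij (fun y _ => fun j => (d : ℤ) * y j) ?_ ?_ ?_
  · intro y hy
    rw [mem_Zf] at hy
    rw [Finset.mem_filter, mem_Zf]
    refine ⟨⟨fun i => ?_, ?_, ?_⟩, fun i => Dvd.intro _ rfl⟩
    · have h1 := hy.1 i
      have h2 : (d : ℤ) * ((m / d : ℕ) : ℤ) ≤ m := by exact_mod_cast Nat.mul_div_le m d
      rw [abs_mul, Nat.abs_cast]
      exact (mul_le_mul_of_nonneg_left h1 (by positivity)).trans h2
    · intro h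
      apply hy.2.1
      funext i
      have := congrFun h i
      simp only [Pi.zero_apply, mul_eq_zero] at this
      rcases this with h | h
      · exact absurd h hd0
      · exact h
    · rw [mob_scale, hy.2.2, mul_zero]
  · intro y _ y' _ h
    funext i
    exact mul_left_cancel₀ hd0 (congrFun h i)
  · intro x hx
    rw [Finset.mem_filter, mem_Zf] at hx
    obtain ⟨⟨h1, h2, h3⟩, h4⟩ := hx
    choose y hy using h4
    have hxy : x = fun j => (d : ℤ) * y j := funext hy
    refine ⟨y, ?_, hxy.symm⟩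
    rw [mem_Zf]
    refine ⟨fun i => ?_, ?_, ?_⟩
    · have h5 := h1 i
      rw [hy i, abs_mul, Nat.abs_cast, Int.abs_eq_natAbs] at h5
      have h6 : d * (y i).natAbs ≤ m := by exact_mod_cast h5
      have h7 : (y i).natAbs ≤ m / d := by
        rw [Nat.le_div_iff_mul_le (by omega), mul_comm]
        exact h6
      rw [Int.abs_eq_natAbs]
      exact_mod_cast h7
    · intro h
      apply h2
      rw [hxy, h]
      funext i
      simp
    · rw [hxy, mob_scale] at h3
      rcases mul_eq_zero.1 h3 with h | h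
      · exact absurd h (pow_ne_zero _ hd0)
      · exact h

theorem mob_ind {s : ℕ} (A : Matrix (Fin s) (Fin s) ℤ) (k m : ℕ) (x : Fin s → ℤ)
    (hx : x ∈ Zf A k m) : (if Finset.univ.gcd x = 1 then (1 : ℤ) else 0) =
      ∑ d ∈ Finset.Icc 1 m, if (∀ i, (d : ℤ) ∣ x i) then ArithmeticFunction.moebius d else 0 := by
  classical
  rw [mem_Zf] at hx
  obtain ⟨h1, h2, h3⟩ := hx
  obtain ⟨i0, hi0⟩ : ∃ i, x i ≠ 0 := by
    by_contra h
    push Not at h
    exact h2 (funext h)
  obtain ⟨g, hg⟩ : ∃ g : ℕ, (g : ℤ) = Finset.univ.gcd x := by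
    refine ⟨(Finset.univ.gcd x).natAbs, ?_⟩
    rw [Int.natCast_natAbs, Int.abs_eq_normalize, Finset.normalize_gcd]
  have hgd : ∀ d : ℕ, (∀ i, (d : ℤ) ∣ x i) ↔ d ∣ g := by
    intro d
    rw [← Int.natCast_dvd_natCast, hg, Finset.dvd_gcd_iff]
    simp
  have hgx : (g : ℤ) ∣ x i0 := (hgd g).2 (dvd_refl g) i0
  have hg0 : g ≠ 0 := by
    intro h
    rw [h] at hgx
    exact hi0 (by simpa using hgx)
  have hgm : g ≤ m := by
    have h4 : (g : ℤ) ≤ |x i0| := Int.le_of_dvd (abs_pos.2 hi0) ((dvd_abs _ _).2 hgx)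
    have h5 := h4.trans (h1 i0)
    exact_mod_cast h5
  have h6 : (Finset.univ.gcd x = 1) ↔ g = 1 := by
    rw [← hg]
    exact_mod_cast Iff.rfl
  have h7 : (∑ d ∈ Finset.Icc 1 m, if (∀ i, (d : ℤ) ∣ x i) then ArithmeticFunction.moebius d
      else 0) = ∑ d ∈ g.divisors, ArithmeticFunction.moebius d := by
    rw [← Finset.sum_filter]
    refine Finset.sum_congr ?_ fun _ _ => rfl
    ext d
    rw [Finset.mem_filter, Finset.mem_Icc, Nat.mem_divisors, hgd]
    constructor
    · rintro ⟨-, h⟩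
      exact ⟨h, hg0⟩
    · rintro ⟨h, -⟩
      exact ⟨⟨Nat.pos_of_dvd_of_pos h (Nat.pos_of_ne_zero hg0),
        (Nat.le_of_dvd (Nat.pos_of_ne_zero hg0) h).trans hgm⟩, h⟩
  rw [h7, mob_sum]
  by_cases h8 : g = 1
  · rw [if_pos (h6.2 h8), if_pos h8]
  · rw [if_neg (fun h => h8 (h6.1 h)), if_neg h8]

theorem mob_card_Pf {s : ℕ} (A : Matrix (Fin s) (Fin s) ℤ) (k m : ℕ) :
    ((Pf A k m).card : ℤ) =
      ∑ d ∈ Finset.Icc 1 m, ArithmeticFunction.moebius d * ((Zf A k (m / d)).card : ℤ) := by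
  classical
  have h1 : ((Pf A k m).card : ℤ) =
      ∑ x ∈ Zf A k m, if Finset.univ.gcd x = 1 then (1 : ℤ) else 0 := by
    unfold Pf
    rw [Finset.card_filter]
    push_cast
    rfl
  rw [h1, Finset.sum_congr rfl (mob_ind A k m), Finset.sum_comm]
  refine Finset.sum_congr rfl fun d hd => ?_
  rw [mob_card_dvd A k m d (Finset.mem_Icc.1 hd).1, ← Finset.sum_filter, Finset.sum_const,
    nsmul_eq_mul, mul_comm]

theorem mob_floor (d : ℕ) (hd : 1 ≤ d) :
    Tendsto (fun m : ℕ => ((m / d : ℕ) : ℝ) / (m : ℝ)) atTop (𝓝 (1 / (d : ℝ))) := by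
  have hdp : (0 : ℝ) < d := by exact_mod_cast hd
  have h0 : Tendsto (fun m : ℕ => (1 : ℝ) / (d : ℝ) - 1 / (m : ℝ)) atTop (𝓝 (1 / (d : ℝ) - 0)) :=
    tendsto_const_nhds.sub tendsto_one_div_atTop_nhds_zero_nat
  rw [sub_zero] at h0
  refine tendsto_of_tendsto_of_tendsto_of_le_of_le' h0 tendsto_const_nhds ?_ ?_
  · filter_upwards [eventually_ge_atTop 1] with m hm
    have hmp : (0 : ℝ) < m := by exact_mod_cast hm
    have h1 : (m : ℝ) < d * ((m / d : ℕ) : ℝ) + d := by
      have := Nat.lt_mul_div_succ m (by omega : 0 < d)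
      have h2 : (m : ℝ) < ((d * (m / d + 1) : ℕ) : ℝ) := by exact_mod_cast this
      push_cast at h2
      rw [mul_add, mul_one] at h2
      exact_mod_cast h2
    rw [le_div_iff₀ hmp, sub_mul, div_mul_cancel₀ _ hmp.ne', one_div, inv_mul_eq_div,
      sub_le_iff_le_add, div_le_iff₀ hdp]
    nlinarith
  · filter_upwards [eventually_ge_atTop 1] with m hm
    have hmp : (0 : ℝ) < m := by exact_mod_cast hm
    rw [div_le_div_iff₀ hmp hdp, one_mul]
    exact_mod_cast Nat.div_mul_le_self m d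

theorem x_MOB : S_MOB := by
  intro s k A E c C hk hE hup hlim
  classical
  have hC : 0 ≤ C := by
    have := hup 1 (le_refl _)
    have h2 : (0 : ℝ) ≤ ((Zf A k 1).card : ℝ) := Nat.cast_nonneg _
    simpa using h2.trans this
  let f : ℕ → ℕ → ℝ := fun m d => if 1 ≤ d ∧ d ≤ m then
    (ArithmeticFunction.moebius d : ℝ) * (((Zf A k (m / d)).card : ℝ) / (m : ℝ) ^ E) else 0
  let g : ℕ → ℝ := fun d => (ArithmeticFunction.moebius d : ℝ) * (c * (1 / (d : ℝ)) ^ E)
  have hmu : ∀ d : ℕ, |(ArithmeticFunction.moebius d : ℝ)| ≤ 1 := by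
    intro d
    have := ArithmeticFunction.abs_moebius_le_one (n := d)
    exact_mod_cast this
  have hsum : Summable (fun d : ℕ => C * (1 / (d : ℝ) ^ E)) :=
    (Real.summable_one_div_nat_pow.2 (by omega)).mul_left C
  have hab : ∀ d : ℕ, Tendsto (fun m => f m d) atTop (𝓝 (g d)) := by
    intro d
    rcases Nat.eq_zero_or_pos d with h0 | h0
    · have h1 : (fun m => f m d) = fun _ => 0 := by
        funext m
        simp only [f]
        rw [if_neg (by omega)]
      have h2 : g d = 0 := by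
        simp only [g]
        rw [h0]
        simp
      rw [h1, h2]
      exact tendsto_const_nhds
    · have h1 : Tendsto (fun m : ℕ => m / d) atTop atTop :=
        Nat.tendsto_div_const_atTop (by omega)
      have h2 := hlim.comp h1
      have h3 := (mob_floor d h0).pow E
      have h4 := (h2.mul h3).const_mul (ArithmeticFunction.moebius d : ℝ)
      refine h4.congr' ?_
      filter_upwards [eventually_ge_atTop d] with m hm
      simp only [f, Function.comp]
      rw [if_pos ⟨h0, hm⟩]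
      congr 1
      have h5 : ((m / d : ℕ) : ℝ) ≠ 0 := by
        have : 0 < m / d := Nat.div_pos hm h0
        exact_mod_cast this.ne'
      rw [div_pow]
      field_simp
  have hbd : ∀ᶠ m : ℕ in atTop, ∀ d : ℕ, ‖f m d‖ ≤ C * (1 / (d : ℝ) ^ E) := by
    filter_upwards [eventually_ge_atTop 1] with m hm d
    have hmp : (0 : ℝ) < m := by exact_mod_cast hm
    simp only [f]
    by_cases h : 1 ≤ d ∧ d ≤ m
    · rw [if_pos h, norm_mul, Real.norm_eq_abs, Real.norm_eq_abs]
      have hdp : (0 : ℝ) < d := by exact_mod_cast h.1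
      have h1 : 1 ≤ m / d := Nat.div_pos h.2 (by omega)
      have h2 := hup (m / d) h1
      have h3 : ((m / d : ℕ) : ℝ) ≤ (m : ℝ) / d := Nat.cast_div_le
      have h4 : ((Zf A k (m / d)).card : ℝ) / (m : ℝ) ^ E ≤ C * (1 / (d : ℝ) ^ E) := by
        rw [div_le_iff₀ (by positivity)]
        calc ((Zf A k (m / d)).card : ℝ) ≤ C * ((m / d : ℕ) : ℝ) ^ E := h2
          _ ≤ C * ((m : ℝ) / d) ^ E :=
              mul_le_mul_of_nonneg_left (pow_le_pow_left₀ (by positivity) h3 _) hC
          _ = _ := by rw [div_pow]; ring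
      have h5 : |((Zf A k (m / d)).card : ℝ) / (m : ℝ) ^ E| =
          ((Zf A k (m / d)).card : ℝ) / (m : ℝ) ^ E := abs_of_nonneg (by positivity)
      rw [h5]
      calc _ ≤ 1 * (((Zf A k (m / d)).card : ℝ) / (m : ℝ) ^ E) :=
            mul_le_mul_of_nonneg_right (hmu d) (by positivity)
        _ ≤ _ := by rw [one_mul]; exact h4
    · rw [if_neg h, norm_zero]
      positivity
  have hT := tendsto_tsum_of_dominated_convergence hsum hab hbd
  refine ⟨∑' d, g d, hT.congr fun m => ?_⟩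
  rw [tsum_eq_sum (s := Finset.Icc 1 m)]
  · have h1 : ((Pf A k m).card : ℝ) = (((Pf A k m).card : ℤ) : ℝ) := by push_cast; rfl
    rw [h1, mob_card_Pf]
    push_cast
    rw [Finset.sum_div]
    refine Finset.sum_congr rfl fun d hd => ?_
    simp only [f]
    rw [if_pos (Finset.mem_Icc.1 hd), mul_div_assoc]
  · intro d hd
    simp only [f]
    rw [Finset.mem_Icc] at hd
    rw [if_neg hd]

end Pool.Agent.helper613_wm
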