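import Pool.Agent.helper613_wm.W9

/-! From primitive integer vectors to rational points. -/

namespace Pool.Agent.helper613_wm

open Finset Filter Topology Pool.Agent.helper132_hp

namespace PTSx

variable {s : ℕ}

theorem neg_mem (A : Matrix (Fin s) (Fin s) ℤ) (k m : ℕ) (x : Fin s → ℤ) (hx : x ∈ Pf A k m) :
    -x ∈ Pf A k m := by
  unfold Pf at hx ⊢
  rw [Finset.mem_filter, mem_Zf] at hx ⊢
  obtain ⟨⟨h1, h2, h3⟩, h4⟩ := hx
  refine ⟨⟨fun i => ?_, neg_ne_zero.2 h2, ?_⟩, ?_⟩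
  · rw [Pi.neg_apply, abs_neg]
    exact h1 i
  · rw [eval_G1'] at h3 ⊢
    have e : ∀ i j, A i j * (-x) i ^ k * (-x) j ^ k = A i j * x i ^ k * x j ^ k := by
      intro i j
      have e1 : (-x) i ^ k * (-x) j ^ k = x i ^ k * x j ^ k := by
        rw [← mul_pow, ← mul_pow, Pi.neg_apply, Pi.neg_apply, neg_mul_neg]
      rw [mul_assoc, e1, mul_assoc]
    simp only [e]
    exact h3
  · have e : Finset.univ.gcd (-x) = Finset.univ.gcd (fun i => (-1 : ℤ) * x i) :=
      Finset.gcd_congr rfl fun i _ => by rw [Pi.neg_apply, neg_one_mul]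
    rw [e, Finset.gcd_mul_left, h4]
    decide

theorem card_Pf_ge (A : Matrix (Fin s) (Fin s) ℤ) (k m : ℕ) :
    2 * (Pts A k m).ncard ≤ (Pf A k m).card := by
  classical
  have hex : ∀ P : Projectivization ℚ (Fin s → ℚ), ∃ x : Fin s → ℤ,
      ∃ h : (fun i => (x i : ℚ)) ≠ 0, Finset.univ.gcd x = 1 ∧
      P = Projectivization.mk ℚ (fun i => (x i : ℚ)) h := exists_prim
  choose f hf0 hf1 hf2 using hex
  obtain ⟨j, hj⟩ : ∃ j : ℕ, (m : ℝ) < 2 ^ j := pow_unbounded_of_one_lt _ (by norm_num)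
  have hfin := (ncard_le A k m j hj).1
  have hinj : Function.Injective f := by
    intro P Q hPQ
    rw [hf2 P, hf2 Q]
    simp only [hPQ]
  have hf0' : ∀ P, f P ≠ 0 := by
    intro P h
    apply hf0 P
    funext i
    rw [h]
    simp
  have hmem : ∀ P ∈ Pts A k m, f P ∈ Pf A k m := by
    intro P hP
    obtain ⟨h1, h2⟩ := hP
    unfold Pf
    rw [Finset.mem_filter, mem_Zf]
    refine ⟨⟨fun i => ?_, hf0' P, ?_⟩, hf1 P⟩
    · have h3 : (|f P i| : ℝ) ≤ m := by
        refine abs_le_of_mulHeight (f P) (hf0 P) (hf1 P) m ?_ i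
        rw [← hf2 P]
        exact h2
      exact_mod_cast h3
    · rw [← rep_iff A k (f P) (hf0 P), ← hf2 P]
      exact h1
  have hneg : ∀ P Q, f P = -f Q → False := by
    intro P Q h
    have hPQ : P = Q := by
      rw [hf2 P, hf2 Q, Projectivization.mk_eq_mk_iff']
      refine ⟨-1, ?_⟩
      funext i
      rw [Pi.smul_apply, smul_eq_mul, h, Pi.neg_apply]
      push_cast
      ring
    rw [hPQ] at h
    apply hf0' Q
    funext i
    have := congrFun h i
    rw [Pi.neg_apply] at this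
    rw [Pi.zero_apply]
    omega
  have hsub : (f '' (Pts A k m)) ∪ ((fun P => -f P) '' (Pts A k m)) ⊆
      ((Pf A k m : Finset (Fin s → ℤ)) : Set (Fin s → ℤ)) := by
    rintro x (⟨P, hP, rfl⟩ | ⟨P, hP, rfl⟩)
    · exact hmem P hP
    · exact neg_mem A k m _ (hmem P hP)
  have hdis : Disjoint (f '' (Pts A k m)) ((fun P => -f P) '' (Pts A k m)) := by
    rw [Set.disjoint_left]
    rintro x ⟨P, -, rfl⟩ ⟨Q, -, hQ⟩
    exact hneg P Q hQ.symm
  have h1 := Set.ncard_le_ncard hsub (Finset.finite_toSet _)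
  rw [Set.ncard_coe_finset, Set.ncard_union_eq hdis (hfin.image f) (hfin.image _),
    Set.ncard_image_of_injective _ hinj, Set.ncard_image_of_injective _
      (fun P Q h => hinj (neg_injective h))] at h1
  omega

theorem card_eq (A : Matrix (Fin s) (Fin s) ℤ) (k m : ℕ) :
    (Pf A k m).card = 2 * (Pts A k m).ncard :=
  le_antisymm (card_Pf A k m) (card_Pf_ge A k m)

/-- heights are integers -/
theorem Pts_floor (A : Matrix (Fin s) (Fin s) ℤ) (k : ℕ) (B : ℝ) (hB : 0 ≤ B) :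
    Pts A k B = Pts A k (⌊B⌋₊ : ℕ) := by
  ext P
  unfold Pts
  simp only [Set.mem_setOf_eq]
  refine and_congr_right fun _ => ?_
  obtain ⟨x, h, hx, hP⟩ := exists_prim P
  have hs : 0 < s := by
    by_contra h0
    have : s = 0 := by omega
    subst this
    exact h (Subsingleton.elim _ _)
  have hH : P.mulHeight = ((⨆ i, |x i| : ℤ) : ℝ) := by
    rw [hP]
    exact mulHeight_prim hs x h hx
  rw [hH]
  constructor
  · intro h1
    have h2 : (⨆ i, |x i| : ℤ) ≤ ⌊B⌋ := Int.le_floor.2 h1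
    have h3 : ((⌊B⌋₊ : ℕ) : ℤ) = ⌊B⌋ := Int.natCast_floor_eq_floor hB
    rw [← h3] at h2
    exact_mod_cast h2
  · intro h1
    exact h1.trans (Nat.floor_le hB)

end PTSx

open PTSx in
theorem x_PTS : S_PTS := by
  intro s k A E c hk hE h
  have h1 : Tendsto (fun B : ℝ => ((Pf A k ⌊B⌋₊).card : ℝ) / ((⌊B⌋₊ : ℕ) : ℝ) ^ E) atTop (𝓝 c) :=
    h.comp tendsto_nat_floor_atTop
  have h2 : Tendsto (fun B : ℝ => (((⌊B⌋₊ : ℕ) : ℝ) / B) ^ E) atTop (𝓝 1) := by
    have := (tendsto_nat_floor_div_atTop (R := ℝ)).pow E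
    simpa using this
  have h3 := (h1.mul h2).div_const 2
  rw [mul_one] at h3
  refine h3.congr' ?_
  filter_upwards [eventually_ge_atTop (1 : ℝ)] with B hB
  have hfl : (1 : ℝ) ≤ ((⌊B⌋₊ : ℕ) : ℝ) := by
    have : 1 ≤ ⌊B⌋₊ := Nat.le_floor (by exact_mod_cast hB)
    exact_mod_cast this
  rw [Pts_floor A k B (by linarith), card_eq]
  have hB0 : B ≠ 0 := by linarith
  have hf0 : ((⌊B⌋₊ : ℕ) : ℝ) ≠ 0 := by linarith
  push_cast
  rw [div_pow]
  field_simp

end Pool.Agent.helper613_wm
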