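import Pool.Agent.helper613_wm.W16
import Pool.Agent.helper613_wm.X_MOB
import Pool.Agent.helper613_wm.X_CUBE
import Pool.Agent.helper613_wm.X_PTS

/-! The asymptotic formula: conclusion. -/

namespace Pool.Agent.helper613_wm

open Filter Topology Pool.Agent.helper132_hp

theorem PtsA_fin {s : ℕ} (A : Matrix (Fin s) (Fin s) ℤ) (k : ℕ) (hs : 2 * k + 2 ≤ s) (B : ℝ) :
    (PtsA A k B).Finite := by
  rcases le_or_gt 0 B with hB | hB
  · rw [PtsA_eq A k hs B hB]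
    obtain ⟨j, hj⟩ : ∃ j : ℕ, B ^ (1 / ((s - 2 * k : ℕ) : ℝ)) < 2 ^ j :=
      pow_unbounded_of_one_lt _ (by norm_num)
    exact (ncard_le A k _ j hj).1
  · have h : PtsA A k B = ∅ := by
      rw [Set.eq_empty_iff_forall_notMem]
      rintro P ⟨_, h2⟩
      have h3 := pow_pos (Projectivization.mulHeight_pos P) (s - 2 * k)
      linarith
    rw [h]
    exact Set.finite_empty

theorem main4 (k : ℕ) (hk : 1 ≤ k) (s : ℕ)
    (A : Matrix (Fin s) (Fin s) ℤ) (hA : A.IsSymm)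
    (I J : Fin (3000 * k ^ 5) → Fin s) (hI : Function.Injective I) (hJ : Function.Injective J)
    (hIJ : ∀ i j, I i ≠ J j) (hdet : (A.submatrix I J).det ≠ 0) :
    (∀ B : ℝ, (PtsA A k B).Finite) ∧ ∃ c : ℝ, 0 ≤ c ∧
      Tendsto (fun B : ℝ => ((PtsA A k B).ncard : ℝ) / B) atTop (𝓝 c) ∧
      ((∀ y : Fin s → ℂ, (∀ l, MvPolynomial.aeval y (MvPolynomial.pderiv l (G1 A k)) = 0) →
        y = 0) → (0 < c ↔ LocSol A k) ∧ (10 ^ 35 * k ^ 65 ≤ s →
          ((∃ y : Fin s → ℝ, y ≠ 0 ∧ MvPolynomial.aeval y (G1 A k) = 0) → 0 < c))) := by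
  have hcard : 3000 * k ^ 5 ≤ s := by
    have := Fintype.card_le_of_injective I hI
    rwa [Fintype.card_fin, Fintype.card_fin] at this
  have hk5 : k ≤ k ^ 5 := Nat.le_self_pow (by norm_num) k
  refine ⟨fun B => PtsA_fin A k (by omega) B, ?_⟩
  obtain ⟨c, h0, h1, h2⟩ := main3 x_CUBE x_MOB x_PTS k hk s A hA I J hI hJ hIJ hdet
  exact ⟨c, h0, h1, fun hS => ⟨h2 hS, fun hs hr =>
    (h2 hS).2 ⟨hr, fun p _ => padic_auto A hA k hk hS hs p⟩⟩⟩

end Pool.Agent.helper613_wm
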