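import Mathlib

/-! Rational points of projective space and primitive integer vectors. -/

namespace Pool.Agent.helper613_wm

open Finset

section
variable {s : ℕ}

/-- a primitive integer representative of a rational point. -/
theorem exists_prim (P : Projectivization ℚ (Fin s → ℚ)) :
    ∃ (x : Fin s → ℤ) (h : (fun i => (x i : ℚ)) ≠ 0), Finset.univ.gcd x = 1 ∧
      P = Projectivization.mk ℚ (fun i => (x i : ℚ)) h := by
  obtain ⟨y, hy0, rfl⟩ : ∃ (y : Fin s → ℚ) (h : y ≠ 0), P = Projectivization.mk ℚ y h :=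
    ⟨P.rep, P.rep_nonzero, (P.mk_rep).symm⟩
  obtain ⟨i0, hi0⟩ : ∃ i, y i ≠ 0 := by
    by_contra h
    push Not at h
    exact hy0 (funext h)
  have hne : (Finset.univ : Finset (Fin s)).Nonempty := ⟨i0, Finset.mem_univ _⟩
  set d : ℕ := ∏ i, (y i).den with hd
  have hd0 : (d : ℚ) ≠ 0 := by
    rw [hd]
    push_cast
    exact Finset.prod_ne_zero_iff.2 fun i _ => by exact_mod_cast (y i).den_nz
  have hint : ∀ i, ∃ z : ℤ, (z : ℚ) = y i * d := by
    intro i
    refine ⟨(y i).num * ∏ j ∈ Finset.univ.erase i, ((y j).den : ℤ), ?_⟩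
    have h1 : (d : ℚ) = (y i).den * ∏ j ∈ Finset.univ.erase i, ((y j).den : ℚ) := by
      rw [hd]
      push_cast
      exact (Finset.mul_prod_erase Finset.univ (fun j => ((y j).den : ℚ)) (Finset.mem_univ i)).symm
    rw [h1, ← mul_assoc, Rat.mul_den_eq_num]
    push_cast
    rfl
  choose z hz using hint
  obtain ⟨x, hx, hx1⟩ := Finset.extract_gcd z hne
  have hg0 : Finset.univ.gcd z ≠ 0 := by
    intro h
    have h1 : z i0 = 0 := (Finset.gcd_eq_zero_iff.1 h) i0 (Finset.mem_univ _)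
    have h2 := hz i0
    rw [h1, Int.cast_zero] at h2
    exact (mul_ne_zero hi0 hd0) h2.symm
  have hrel : ∀ i, y i = (Finset.univ.gcd z : ℤ) / d * x i := by
    intro i
    have h1 := hz i
    rw [hx i (Finset.mem_univ _)] at h1
    push_cast at h1
    field_simp
    linarith
  have hx0 : (fun i => (x i : ℚ)) ≠ 0 := by
    intro h
    have h1 := congrFun h i0
    simp only [Pi.zero_apply] at h1
    rw [hrel i0, h1, mul_zero] at hi0
    exact hi0 rfl
  refine ⟨x, hx0, hx1, ?_⟩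
  rw [Projectivization.mk_eq_mk_iff']
  refine ⟨(Finset.univ.gcd z : ℤ) / d, ?_⟩
  funext i
  rw [Pi.smul_apply, smul_eq_mul]
  exact (hrel i).symm

theorem mulHeight_prim (hs : 0 < s) (x : Fin s → ℤ) (h : (fun i => (x i : ℚ)) ≠ 0)
    (hx : Finset.univ.gcd x = 1) :
    (Projectivization.mk ℚ (fun i => (x i : ℚ)) h).mulHeight = ((⨆ i, |x i| : ℤ) : ℝ) := by
  have : Nonempty (Fin s) := ⟨⟨0, hs⟩⟩
  rw [Projectivization.mulHeight_mk]
  exact Rat.mulHeight_eq_max_abs_of_gcd_eq_one hx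

theorem abs_le_of_mulHeight (x : Fin s → ℤ) (h : (fun i => (x i : ℚ)) ≠ 0)
    (hx : Finset.univ.gcd x = 1) (B : ℝ)
    (hB : (Projectivization.mk ℚ (fun i => (x i : ℚ)) h).mulHeight ≤ B) (i : Fin s) :
    (|x i| : ℝ) ≤ B := by
  have hs : 0 < s := i.pos
  rw [mulHeight_prim hs x h hx] at hB
  refine le_trans ?_ hB
  have h1 : |x i| ≤ ⨆ i, |x i| := le_ciSup (f := fun i => |x i|) (Set.finite_range _).bddAbove i
  exact_mod_cast h1

end

end Pool.Agent.helper613_wm
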