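import Pool.Agent.helper613_wm.W1
import Pool.Agent.helper613_wm.W2

/-! Upper bound for the number of rational points of bounded height. -/

namespace Pool.Agent.helper613_wm

open Finset Pool.Agent.helper132_hp

variable {s : ℕ}

/-- the rational points of height at most `B` on the hypersurface. -/
def Pts (A : Matrix (Fin s) (Fin s) ℤ) (k : ℕ) (B : ℝ) : Set (Projectivization ℚ (Fin s → ℚ)) :=
  {P | MvPolynomial.aeval P.rep (G1 A k) = 0 ∧ P.mulHeight ≤ B}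

theorem aeval_G1' {R : Type} [CommRing R] (A : Matrix (Fin s) (Fin s) ℤ) (k : ℕ)
    (y : Fin s → R) :
    MvPolynomial.aeval y (G1 A k) = ∑ i, ∑ j, (A i j : R) * y i ^ k * y j ^ k := by
  simp [G1, map_sum]

theorem eval_G1' (A : Matrix (Fin s) (Fin s) ℤ) (k : ℕ) (y : Fin s → ℤ) :
    MvPolynomial.eval y (G1 A k) = ∑ i, ∑ j, A i j * y i ^ k * y j ^ k := by
  simp [G1, map_sum]

theorem aeval_smul (A : Matrix (Fin s) (Fin s) ℤ) (k : ℕ) (t : ℚ) (x : Fin s → ℚ) :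
    MvPolynomial.aeval (t • x) (G1 A k) = t ^ (2 * k) * MvPolynomial.aeval x (G1 A k) := by
  rw [aeval_G1', aeval_G1', Finset.mul_sum]
  refine Finset.sum_congr rfl fun i _ => ?_
  rw [Finset.mul_sum]
  refine Finset.sum_congr rfl fun j _ => ?_
  rw [Pi.smul_apply, Pi.smul_apply, smul_eq_mul, smul_eq_mul, mul_pow, mul_pow, two_mul, pow_add]
  ring

theorem aeval_cast (A : Matrix (Fin s) (Fin s) ℤ) (k : ℕ) (x : Fin s → ℤ) :
    MvPolynomial.aeval (fun i => (x i : ℚ)) (G1 A k) = ((MvPolynomial.eval x (G1 A k) : ℤ) : ℚ) := by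
  rw [aeval_G1', eval_G1']
  push_cast
  rfl

/-- the equation holds for the representative iff it holds for the integer vector. -/
theorem rep_iff (A : Matrix (Fin s) (Fin s) ℤ) (k : ℕ) (x : Fin s → ℤ)
    (h : (fun i => (x i : ℚ)) ≠ 0) :
    MvPolynomial.aeval (Projectivization.mk ℚ (fun i => (x i : ℚ)) h).rep (G1 A k) = 0 ↔
      MvPolynomial.eval x (G1 A k) = 0 := by
  obtain ⟨t, ht⟩ := Projectivization.exists_smul_eq_mk_rep ℚ (fun i => (x i : ℚ)) h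
  rw [← ht]
  have e1 : MvPolynomial.aeval (t • (fun i => (x i : ℚ))) (G1 A k) =
      (t : ℚ) ^ (2 * k) * MvPolynomial.aeval (fun i => (x i : ℚ)) (G1 A k) := aeval_smul A k t _
  rw [e1, aeval_cast]
  have ht0 : (t : ℚ) ^ (2 * k) ≠ 0 := pow_ne_zero _ t.ne_zero
  constructor
  · intro h1
    rcases mul_eq_zero.1 h1 with h2 | h2
    · exact absurd h2 ht0
    · exact_mod_cast h2
  · intro h1
    rw [h1]
    simp

/-- the points of height `≤ B < 2^j` are counted by the zeros in the box of level `j`. -/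
theorem ncard_le (A : Matrix (Fin s) (Fin s) ℤ) (k : ℕ) (B : ℝ) (j : ℕ) (hj : B < 2 ^ j) :
    (Pts A k B).Finite ∧ (Pts A k B).ncard ≤ N0 (G1 A k) (fun _ => -1) (fun _ => 1) j := by
  classical
  have hex : ∀ P : Projectivization ℚ (Fin s → ℚ), ∃ x : Fin s → ℤ,
      ∃ h : (fun i => (x i : ℚ)) ≠ 0, Finset.univ.gcd x = 1 ∧
      P = Projectivization.mk ℚ (fun i => (x i : ℚ)) h := exists_prim
  choose f hf0 hf1 hf2 using hex
  have hinj : Function.Injective f := by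
    intro P Q hPQ
    rw [hf2 P, hf2 Q]
    simp only [hPQ]
  obtain ⟨S, hS⟩ : ∃ S : Finset (Fin s → ℤ), S = (Pool.Agent.helper132_hp.box (fun _ => -1)
    (fun _ => 1) j).filter fun z => MvPolynomial.eval z (G1 A k) = 0 := ⟨_, rfl⟩
  have hmem : ∀ P ∈ Pts A k B, f P ∈ S := by
    intro P hP
    obtain ⟨h1, h2⟩ := hP
    rw [hS, Finset.mem_filter]
    constructor
    · unfold Pool.Agent.helper132_hp.box
      rw [Fintype.mem_piFinset]
      intro i
      have h3 : (|f P i| : ℝ) ≤ B := by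
        refine abs_le_of_mulHeight (f P) (hf0 P) (hf1 P) B ?_ i
        rw [← hf2 P]
        exact h2
      have h4 : (|f P i| : ℝ) < 2 ^ j := lt_of_le_of_lt h3 hj
      have h5 : |f P i| < 2 ^ j := by exact_mod_cast h4
      have h6 := abs_lt.1 h5
      rw [Finset.mem_Ico]
      constructor <;> linarith [h6.1, h6.2]
    · rw [← rep_iff A k (f P) (hf0 P), ← hf2 P]
      exact h1
  have hfin : (Pts A k B).Finite := by
    refine Set.Finite.of_finite_image (f := f) ?_ hinj.injOn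
    refine Set.Finite.subset S.finite_toSet ?_
    rintro _ ⟨P, hP, rfl⟩
    exact hmem P hP
  refine ⟨hfin, ?_⟩
  have h7 : (Pts A k B).ncard ≤ (S : Set (Fin s → ℤ)).ncard :=
    Set.ncard_le_ncard_of_injOn f hmem hinj.injOn S.finite_toSet
  rw [Set.ncard_coe_finset] at h7
  rw [hS] at h7
  exact h7

/-- the upper bound, from the minor arc estimate. -/
theorem upper (A : Matrix (Fin s) (Fin s) ℤ) (k : ℕ) (hk : 1 ≤ k) (hs : 2 * k ≤ s)
    (hcr : Crude (G1 A k) (2 * k) (fun _ => -1) (fun _ => 1)) :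
    ∃ C : ℝ, 0 < C ∧ ∀ B : ℝ, 1 ≤ B → (Pts A k B).Finite ∧
      ((Pts A k B).ncard : ℝ) ≤ C * B ^ (s - 2 * k) := by
  obtain ⟨C, hC, hup⟩ := N0_upper (G1 A k) (2 * k) (by omega) (homog_G1 A k) (fun _ => -1)
    (fun _ => 1) (fun _ => by norm_num) hcr
  rw [Fintype.card_fin] at hup
  refine ⟨C * 2 ^ (s - 2 * k), by positivity, fun B hB => ?_⟩
  obtain ⟨j, hj1, hj2⟩ : ∃ j : ℕ, B < 2 ^ j ∧ (2 : ℝ) ^ j ≤ 2 * B := by
    have hfl : ⌊B⌋₊ ≠ 0 := by
      have : 1 ≤ ⌊B⌋₊ := Nat.le_floor (by exact_mod_cast hB)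
      omega
    refine ⟨Nat.log 2 ⌊B⌋₊ + 1, ?_, ?_⟩
    · have h1 : ⌊B⌋₊ < 2 ^ (Nat.log 2 ⌊B⌋₊ + 1) := Nat.lt_pow_succ_log_self (by norm_num) _
      have h2 : ⌊B⌋₊ + 1 ≤ 2 ^ (Nat.log 2 ⌊B⌋₊ + 1) := h1
      have h3 : ((⌊B⌋₊ + 1 : ℕ) : ℝ) ≤ ((2 ^ (Nat.log 2 ⌊B⌋₊ + 1) : ℕ) : ℝ) := by exact_mod_cast h2
      have h4 := Nat.lt_floor_add_one B
      push_cast at h3
      linarith
    · have h1 : 2 ^ (Nat.log 2 ⌊B⌋₊) ≤ ⌊B⌋₊ := Nat.pow_log_le_self 2 hfl
      have h2 : ((2 ^ (Nat.log 2 ⌊B⌋₊) : ℕ) : ℝ) ≤ (⌊B⌋₊ : ℝ) := by exact_mod_cast h1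
      have h3 := Nat.floor_le (show 0 ≤ B by linarith)
      push_cast at h2
      rw [pow_succ]
      linarith
  obtain ⟨hfin, hle⟩ := ncard_le A k B j hj1
  refine ⟨hfin, ?_⟩
  have h1 : ((Pts A k B).ncard : ℝ) ≤ N0 (G1 A k) (fun _ => -1) (fun _ => 1) j := by
    exact_mod_cast hle
  have h2 : (N0 (G1 A k) (fun _ => -1) (fun _ => 1) j : ℝ) ≤ C * (2 ^ j) ^ (s - 2 * k) := by
    have h3 := hup j
    have h4 : (2 : ℝ) ^ (s * j) = (2 ^ j) ^ (s - 2 * k) * 2 ^ (2 * k * j) := by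
      rw [← pow_mul, ← pow_add]
      congr 1
      rw [mul_comm j, ← add_mul]
      congr 1
      omega
    rw [h4, ← mul_assoc] at h3
    exact le_of_mul_le_mul_right h3 (by positivity)
  calc ((Pts A k B).ncard : ℝ) ≤ C * (2 ^ j) ^ (s - 2 * k) := h1.trans h2
    _ ≤ C * (2 * B) ^ (s - 2 * k) :=
        mul_le_mul_of_nonneg_left (pow_le_pow_left₀ (by positivity) hj2 _) hC.le
    _ = _ := by rw [mul_pow]; ring

end Pool.Agent.helper613_wm
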