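import Pool.Agent.helper613_wm.W3

/-! Smoothness of the hypersurface when all principal minors are nonzero. -/

namespace Pool.Agent.helper613_wm

open Finset Pool.Agent.helper132_hp

variable {s : ℕ}

theorem smooth_of_minors (A : Matrix (Fin s) (Fin s) ℤ) (hA : A.IsSymm) (k : ℕ) (hk : 1 ≤ k)
    (hprin : ∀ T : Finset (Fin s), T.Nonempty →
      (A.submatrix (fun i : T => (i : Fin s)) (fun i : T => (i : Fin s))).det ≠ 0)
    (y : Fin s → ℂ) (h : ∀ l, MvPolynomial.aeval y (MvPolynomial.pderiv l (G1 A k)) = 0) :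
    y = 0 := by
  classical
  by_contra hy
  obtain ⟨i0, hi0⟩ : ∃ i, y i ≠ 0 := by
    by_contra h'
    push Not at h'
    exact hy (funext h')
  obtain ⟨T, hT⟩ : ∃ T : Finset (Fin s), T = Finset.univ.filter (fun i => y i ≠ 0) := ⟨_, rfl⟩
  have hTm : ∀ i, i ∈ T ↔ y i ≠ 0 := by
    intro i
    rw [hT]
    simp
  have hne : T.Nonempty := ⟨i0, (hTm i0).2 hi0⟩
  have hrow : ∀ l ∈ T, ∑ j, (A l j : ℂ) * y j ^ k = 0 := by
    intro l hl
    have h1 := h l
    rw [aeval_pderiv_G1] at h1
    have h2 : ∑ i, (A i l : ℂ) * y i ^ k = ∑ j, (A l j : ℂ) * y j ^ k :=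
      Finset.sum_congr rfl fun i _ => by rw [hA.apply l i]
    rw [h2, ← two_mul] at h1
    have h3 : (k : ℂ) * y l ^ (k - 1) ≠ 0 := by
      refine mul_ne_zero ?_ (pow_ne_zero _ ((hTm l).1 hl))
      exact_mod_cast (by omega : k ≠ 0)
    rcases mul_eq_zero.1 h1 with h4 | h4
    · norm_num at h4
    · rcases mul_eq_zero.1 h4 with h5 | h5
      · exact absurd h5 h3
      · exact h5
  have hdet : ((A.submatrix (fun i : T => (i : Fin s)) (fun i : T => (i : Fin s))).map
      (Int.castRingHom ℂ)).det ≠ 0 := by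
    rw [← RingHom.mapMatrix_apply, ← RingHom.map_det]
    have := hprin T hne
    simpa using this
  have hmv : ((A.submatrix (fun i : T => (i : Fin s)) (fun i : T => (i : Fin s))).map
      (Int.castRingHom ℂ)).mulVec (fun j : T => y j ^ k) = 0 := by
    funext l
    rw [Pi.zero_apply, ← hrow l l.2]
    unfold Matrix.mulVec dotProduct
    have h1 : ∑ j, (A l j : ℂ) * y j ^ k = ∑ j ∈ T, (A l j : ℂ) * y j ^ k := by
      symm
      refine Finset.sum_subset (Finset.subset_univ T) ?_
      intro j _ hj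
      have : y j = 0 := by
        by_contra h'
        exact hj ((hTm j).2 h')
      rw [this, zero_pow (by omega), mul_zero]
    rw [h1, ← Finset.sum_coe_sort T]
    rfl
  have h0 := Matrix.eq_zero_of_mulVec_eq_zero hdet hmv
  have h1 := congrFun h0 ⟨i0, (hTm i0).2 hi0⟩
  simp only [Pi.zero_apply] at h1
  exact hi0 (by simpa using (pow_eq_zero_iff (by omega)).1 h1)

end Pool.Agent.helper613_wm
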