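import Pool.Agent.helper613_wm.W3
import Pool.Agent.helper613_wm.W5

/-! Lower bound for the number of rational points of bounded height. -/

namespace Pool.Agent.helper613_wm

open Finset Pool.Agent.helper132_hp

variable {s : ℕ}

/-- nonzero integer zeros with coordinates at most `m`. -/
noncomputable def Zf (A : Matrix (Fin s) (Fin s) ℤ) (k m : ℕ) : Finset (Fin s → ℤ) :=
  (Fintype.piFinset fun _ => Finset.Icc (-(m : ℤ)) m).filter
    fun x => x ≠ 0 ∧ MvPolynomial.eval x (G1 A k) = 0

/-- the primitive ones. -/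
noncomputable def Pf (A : Matrix (Fin s) (Fin s) ℤ) (k m : ℕ) : Finset (Fin s → ℤ) :=
  (Zf A k m).filter fun x => Finset.univ.gcd x = 1

theorem mem_Zf (A : Matrix (Fin s) (Fin s) ℤ) (k m : ℕ) (x : Fin s → ℤ) :
    x ∈ Zf A k m ↔ (∀ i, |x i| ≤ (m : ℤ)) ∧ x ≠ 0 ∧ MvPolynomial.eval x (G1 A k) = 0 := by
  unfold Zf
  rw [Finset.mem_filter, Fintype.mem_piFinset]
  simp only [Finset.mem_Icc, abs_le]

theorem card_Zf (A : Matrix (Fin s) (Fin s) ℤ) (k : ℕ) (hk : 1 ≤ k) (hs : 2 * k ≤ s)
    (hcr : Crude (G1 A k) (2 * k) (fun _ => -1) (fun _ => 1)) :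
    ∃ C : ℝ, 0 < C ∧ ∀ m : ℕ, 1 ≤ m → ((Zf A k m).card : ℝ) ≤ C * (m : ℝ) ^ (s - 2 * k) := by
  classical
  obtain ⟨C, hC, hup⟩ := N0_upper (G1 A k) (2 * k) (by omega) (homog_G1 A k) (fun _ => -1)
    (fun _ => 1) (fun _ => by norm_num) hcr
  rw [Fintype.card_fin] at hup
  refine ⟨C * 2 ^ (s - 2 * k), by positivity, fun m hm => ?_⟩
  obtain ⟨j, hj⟩ : ∃ j, j = Nat.log 2 m + 1 := ⟨_, rfl⟩
  have hj1 : m < 2 ^ j := by
    rw [hj]
    exact Nat.lt_pow_succ_log_self (by norm_num) _
  have hj2 : (2 : ℝ) ^ j ≤ 2 * m := by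
    have h1 : 2 ^ (Nat.log 2 m) ≤ m := Nat.pow_log_le_self 2 (by omega)
    have h2 : ((2 ^ (Nat.log 2 m) : ℕ) : ℝ) ≤ (m : ℝ) := by exact_mod_cast h1
    push_cast at h2
    rw [hj, pow_succ]
    linarith
  have hsub : Zf A k m ⊆ (Pool.Agent.helper132_hp.box (fun _ => -1)
      (fun _ => 1) j).filter fun z => MvPolynomial.eval z (G1 A k) = 0 := by
    intro x hx
    rw [mem_Zf] at hx
    refine Finset.mem_filter.2 ⟨?_, hx.2.2⟩
    unfold Pool.Agent.helper132_hp.box
    rw [Fintype.mem_piFinset]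
    intro i
    have h1 := abs_le.1 (hx.1 i)
    have h2 : (m : ℤ) < 2 ^ j := by exact_mod_cast hj1
    rw [Finset.mem_Ico]
    constructor <;> linarith [h1.1, h1.2]
  have h1 : ((Zf A k m).card : ℝ) ≤ N0 (G1 A k) (fun _ => -1) (fun _ => 1) j := by
    exact_mod_cast Finset.card_le_card hsub
  have h2 : (N0 (G1 A k) (fun _ => -1) (fun _ => 1) j : ℝ) ≤ C * (2 ^ j) ^ (s - 2 * k) := by
    have h3 := hup j
    have h4 : (2 : ℝ) ^ (s * j) = (2 ^ j) ^ (s - 2 * k) * 2 ^ (2 * k * j) := by
      rw [← pow_mul, ← pow_add]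
      congr 1
      rw [mul_comm j, ← add_mul]
      congr 1
      omega
    rw [h4, ← mul_assoc] at h3
    exact le_of_mul_le_mul_right h3 (by positivity)
  calc ((Zf A k m).card : ℝ) ≤ C * (2 ^ j) ^ (s - 2 * k) := h1.trans h2
    _ ≤ C * (2 * m) ^ (s - 2 * k) :=
        mul_le_mul_of_nonneg_left (pow_le_pow_left₀ (by positivity) hj2 _) hC.le
    _ = _ := by rw [mul_pow]; ring

theorem cast_ne (x : Fin s → ℤ) (h : x ≠ 0) : (fun i => (x i : ℚ)) ≠ 0 := by
  intro h1
  apply h
  funext i
  have := congrFun h1 i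
  simpa using this

/-- proportional primitive vectors are equal up to sign. -/
theorem prim_eq (x y : Fin s → ℤ) (hx : Finset.univ.gcd x = 1) (hy : Finset.univ.gcd y = 1)
    (t : ℚ) (h : ∀ i, (x i : ℚ) = t * y i) : x = y ∨ x = -y := by
  have h1 : ∀ i, (t.den : ℤ) * x i = t.num * y i := by
    intro i
    have h2 : ((t.den : ℤ) : ℚ) * x i = (t.num : ℚ) * y i := by
      rw [h i]
      have h3 : t * (t.den : ℚ) = t.num := Rat.mul_den_eq_num t
      push_cast
      rw [← h3]
      ring
    exact_mod_cast h2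
  have h2 : Finset.univ.gcd (fun i => (t.den : ℤ) * x i) = Finset.univ.gcd (fun i => t.num * y i) :=
    Finset.gcd_congr rfl fun i _ => h1 i
  rw [Finset.gcd_mul_left, Finset.gcd_mul_left, hx, hy, mul_one, mul_one, Int.normalize_coe_nat]
    at h2
  have hd : (t.den : ℤ) ≠ 0 := by exact_mod_cast t.den_nz
  rw [← Int.abs_eq_normalize] at h2
  rcases abs_choice t.num with h3 | h3
  · left
    funext i
    have := h1 i
    rw [h2, h3] at this
    rw [h2, h3] at hd
    exact mul_left_cancel₀ hd this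
  · right
    funext i
    have := h1 i
    rw [h2, h3] at this
    rw [h2, h3] at hd
    have h4 : -t.num * x i = -t.num * (-y) i := by
      rw [this, Pi.neg_apply]
      ring
    exact mul_left_cancel₀ hd h4

theorem card_Pf (A : Matrix (Fin s) (Fin s) ℤ) (k m : ℕ) :
    (Pf A k m).card ≤ 2 * (Pts A k m).ncard := by
  classical
  have hex : ∀ P : Projectivization ℚ (Fin s → ℚ), ∃ x : Fin s → ℤ,
      ∃ h : (fun i => (x i : ℚ)) ≠ 0, Finset.univ.gcd x = 1 ∧
      P = Projectivization.mk ℚ (fun i => (x i : ℚ)) h := exists_prim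
  choose f hf0 hf1 hf2 using hex
  obtain ⟨j, hj⟩ : ∃ j : ℕ, (m : ℝ) < 2 ^ j := pow_unbounded_of_one_lt _ (by norm_num)
  have hfin := (ncard_le A k m j hj).1
  have hsub : ((Pf A k m : Finset (Fin s → ℤ)) : Set (Fin s → ℤ)) ⊆
      (f '' (Pts A k m)) ∪ ((fun P => -f P) '' (Pts A k m)) := by
    intro x hx
    rw [Finset.mem_coe] at hx
    unfold Pf at hx
    rw [Finset.mem_filter, mem_Zf] at hx
    obtain ⟨⟨hx1, hx2, hx3⟩, hx4⟩ := hx
    have hx0 := cast_ne x hx2
    obtain ⟨P, hP⟩ : ∃ P, P = Projectivization.mk ℚ (fun i => (x i : ℚ)) hx0 := ⟨_, rfl⟩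
    have hmem : P ∈ Pts A k m := by
      constructor
      · rw [hP, rep_iff]
        exact hx3
      · rw [hP]
        obtain ⟨i0, hi0⟩ : ∃ i, x i ≠ 0 := by
          by_contra h
          push Not at h
          exact hx2 (funext h)
        rw [mulHeight_prim i0.pos x hx0 hx4]
        have : Nonempty (Fin s) := ⟨i0⟩
        have h1 : (⨆ i, |x i|) ≤ (m : ℤ) := ciSup_le hx1
        exact_mod_cast h1
    have h3 : Projectivization.mk ℚ (fun i => (x i : ℚ)) hx0 =
        Projectivization.mk ℚ (fun i => (f P i : ℚ)) (hf0 P) := by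
      rw [← hf2 P, hP]
    rw [Projectivization.mk_eq_mk_iff'] at h3
    obtain ⟨t, ht⟩ := h3
    have h4 : ∀ i, (x i : ℚ) = t * f P i := by
      intro i
      have := congrFun ht i
      rw [Pi.smul_apply, smul_eq_mul] at this
      exact this.symm
    rcases prim_eq x (f P) hx4 (hf1 P) t h4 with h5 | h5
    · exact Or.inl ⟨P, hmem, h5.symm⟩
    · exact Or.inr ⟨P, hmem, h5.symm⟩
  have h1 := Set.ncard_le_ncard hsub ((hfin.image f).union (hfin.image _))
  rw [Set.ncard_coe_finset] at h1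
  refine h1.trans ((Set.ncard_union_le _ _).trans ?_)
  have h2 := Set.ncard_image_le (f := f) hfin
  have h3 := Set.ncard_image_le (f := fun P => -f P) hfin
  omega

/-- every zero is a multiple of a primitive one. -/
theorem N0_le_sum (A : Matrix (Fin s) (Fin s) ℤ) (k j : ℕ) :
    N0 (G1 A k) (fun _ => -1) (fun _ => 1) j ≤
      1 + ∑ g ∈ Finset.Icc 1 (2 ^ j), (Pf A k (2 ^ j / g)).card := by
  classical
  have hsub : (Pool.Agent.helper132_hp.box (fun _ => -1)
      (fun _ => 1) j).filter (fun z => MvPolynomial.eval z (G1 A k) = 0) ⊆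
      {0} ∪ (Finset.Icc 1 (2 ^ j)).biUnion
        (fun g => (Pf A k (2 ^ j / g)).image (fun x => (g : ℤ) • x)) := by
    intro z hz
    obtain ⟨hz1, hz2⟩ := Finset.mem_filter.1 hz
    unfold Pool.Agent.helper132_hp.box at hz1
    rw [Fintype.mem_piFinset] at hz1
    by_cases hz0 : z = 0
    · rw [hz0]
      exact Finset.mem_union_left _ (Finset.mem_singleton_self _)
    · refine Finset.mem_union_right _ ?_
      obtain ⟨i0, hi0⟩ : ∃ i, z i ≠ 0 := by
        by_contra h
        push Not at h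
        exact hz0 (funext h)
      obtain ⟨x, hx, hx1⟩ := Finset.extract_gcd z ⟨i0, Finset.mem_univ i0⟩
      obtain ⟨g, hg⟩ : ∃ g : ℕ, (g : ℤ) = Finset.univ.gcd z := by
        refine ⟨(Finset.univ.gcd z).natAbs, ?_⟩
        rw [Int.natCast_natAbs, Int.abs_eq_normalize, Finset.normalize_gcd]
      have hzx : ∀ i, z i = g * x i := by
        intro i
        rw [hg]
        exact hx i (Finset.mem_univ i)
      have hzabs : ∀ i, |z i| ≤ 2 ^ j := by
        intro i
        have h1 := Finset.mem_Ico.1 (hz1 i)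
        rw [abs_le]
        constructor <;> linarith [h1.1, h1.2]
      have hg0 : g ≠ 0 := by
        intro h
        apply hi0
        rw [hzx i0, h]
        simp
      have hnat : ∀ i, g * (x i).natAbs ≤ 2 ^ j := by
        intro i
        have h1 := hzabs i
        rw [hzx i, abs_mul, Nat.abs_cast, Int.abs_eq_natAbs] at h1
        exact_mod_cast h1
      have hx0 : x ≠ 0 := by
        intro h
        apply hi0
        rw [hzx i0, h]
        simp
      have hgle : g ≤ 2 ^ j := by
        have h1 := hnat i0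
        have h2 : (x i0).natAbs ≠ 0 := by
          intro h
          apply hi0
          rw [hzx i0, Int.natAbs_eq_zero.1 h, mul_zero]
        calc g = g * 1 := (mul_one g).symm
          _ ≤ g * (x i0).natAbs := Nat.mul_le_mul_left _ (by omega)
          _ ≤ 2 ^ j := h1
      refine Finset.mem_biUnion.2 ⟨g, Finset.mem_Icc.2 ⟨by omega, hgle⟩,
        Finset.mem_image.2 ⟨x, ?_, ?_⟩⟩
      · unfold Pf
        rw [Finset.mem_filter, mem_Zf]
        refine ⟨⟨fun i => ?_, hx0, ?_⟩, hx1⟩
        · have h1 : (x i).natAbs ≤ 2 ^ j / g := by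
            rw [Nat.le_div_iff_mul_le (Nat.pos_of_ne_zero hg0), mul_comm]
            exact hnat i
          rw [Int.abs_eq_natAbs]
          exact_mod_cast h1
        · rw [eval_G1'] at hz2 ⊢
          have h1 : ∑ i, ∑ j, A i j * z i ^ k * z j ^ k =
              (g : ℤ) ^ (2 * k) * ∑ i, ∑ j, A i j * x i ^ k * x j ^ k := by
            rw [Finset.mul_sum]
            refine Finset.sum_congr rfl fun i _ => ?_
            rw [Finset.mul_sum]
            refine Finset.sum_congr rfl fun l _ => ?_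
            rw [hzx i, hzx l, mul_pow, mul_pow, two_mul, pow_add]
            ring
          rw [h1] at hz2
          rcases mul_eq_zero.1 hz2 with h2 | h2
          · exact absurd h2 (pow_ne_zero _ (by exact_mod_cast hg0))
          · exact h2
      · funext i
        rw [Pi.smul_apply, smul_eq_mul, hzx i]
  have h1 := Finset.card_le_card hsub
  refine h1.trans ((Finset.card_union_le _ _).trans ?_)
  rw [Finset.card_singleton]
  refine Nat.add_le_add_left (Finset.card_biUnion_le.trans ?_) 1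
  exact Finset.sum_le_sum fun g _ => Finset.card_image_le

end Pool.Agent.helper613_wm
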