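import Pool.Agent.helper613_wm.W6

/-! Lower bound for the number of rational points of bounded height: conclusion. -/

namespace Pool.Agent.helper613_wm

open Finset Pool.Agent.helper132_hp

variable {s : ℕ}

theorem Pf_mono (A : Matrix (Fin s) (Fin s) ℤ) (k : ℕ) {m m' : ℕ} (h : m ≤ m') :
    Pf A k m ⊆ Pf A k m' := by
  intro x hx
  unfold Pf at hx ⊢
  rw [Finset.mem_filter, mem_Zf] at hx ⊢
  refine ⟨⟨fun i => le_trans (hx.1.1 i) (by exact_mod_cast h), hx.1.2.1, hx.1.2.2⟩, hx.2⟩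

theorem lower (A : Matrix (Fin s) (Fin s) ℤ) (k : ℕ) (hk : 1 ≤ k) (hs : 2 * k + 2 ≤ s)
    (hcr : Crude (G1 A k) (2 * k) (fun _ => -1) (fun _ => 1))
    (hlow : ∃ c : ℝ, 0 < c ∧ ∃ j0 : ℕ, ∀ j ≥ j0,
      c * (2 ^ (Fintype.card (Fin s) * j) / 2 ^ (2 * k * j)) ≤
        (N0 (G1 A k) (fun _ => -1) (fun _ => 1) j : ℝ)) :
    ∃ c : ℝ, 0 < c ∧ ∃ B0 : ℝ, ∀ B ≥ B0, c * B ^ (s - 2 * k) ≤ ((Pts A k B).ncard : ℝ) := by
  obtain ⟨κ, hκ, j0, hj0⟩ := hlow
  obtain ⟨C, hC, hZ⟩ := card_Zf A k hk (by omega) hcr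
  obtain ⟨E, hE⟩ : ∃ E, E = s - 2 * k := ⟨_, rfl⟩
  have hE2 : 2 ≤ E := by omega
  rw [← hE] at hZ ⊢
  have hlow' : ∀ j ≥ j0, κ * ((2 : ℝ) ^ j) ^ E ≤ (N0 (G1 A k) (fun _ => -1) (fun _ => 1) j : ℝ) := by
    intro j hj
    refine le_trans (le_of_eq ?_) (hj0 j hj)
    rw [Fintype.card_fin]
    congr 1
    rw [eq_div_iff (by positivity), ← pow_mul, ← pow_add]
    congr 1
    have : s = E + 2 * k := by omega
    rw [this]
    ring
  obtain ⟨G, hG⟩ : ∃ G : ℕ, 4 * C / κ < G := exists_nat_gt _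
  have hG0 : (0 : ℝ) < G := lt_trans (by positivity) hG
  have hGn : G ≠ 0 := by
    intro h
    rw [h] at hG0
    simp at hG0
  have hCG : C / G ≤ κ / 4 := by
    rw [div_le_iff₀ hG0]
    rw [div_lt_iff₀ hκ] at hG
    linarith
  obtain ⟨j1, hj1⟩ : ∃ j1 : ℕ, 4 / κ < (2 : ℝ) ^ j1 := pow_unbounded_of_one_lt _ (by norm_num)
  have hmain : ∀ j ≥ max j0 j1, κ / (4 * G) * ((2 : ℝ) ^ j) ^ E ≤ ((Pts A k (2 ^ j)).ncard : ℝ) := by
    intro j hj
    have hjj0 : j0 ≤ j := le_trans (le_max_left _ _) hj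
    have hjj1 : j1 ≤ j := le_trans (le_max_right _ _) hj
    have hX1 : (1 : ℝ) ≤ 2 ^ j := one_le_pow₀ (by norm_num)
    have hXE : (2 : ℝ) ^ j ≤ ((2 : ℝ) ^ j) ^ E := le_self_pow₀ hX1 (by omega)
    have hone : (1 : ℝ) ≤ κ / 4 * ((2 : ℝ) ^ j) ^ E := by
      have h1 : (2 : ℝ) ^ j1 ≤ 2 ^ j := pow_le_pow_right₀ (by norm_num) hjj1
      have h2 : 4 / κ ≤ ((2 : ℝ) ^ j) ^ E := by linarith
      rw [div_le_iff₀ hκ] at h2
      linarith
    have hsum : (∑ g ∈ Finset.Icc 1 (2 ^ j), ((Pf A k (2 ^ j / g)).card : ℝ)) ≤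
        G * ((Pf A k (2 ^ j)).card : ℝ) + C * ((2 : ℝ) ^ j) ^ E * (1 / G) := by
      have hsub : Finset.Icc 1 (2 ^ j) ⊆ Finset.Icc 1 G ∪ Finset.Ioc G (2 ^ j) := by
        intro g hg
        rw [Finset.mem_Icc] at hg
        rw [Finset.mem_union, Finset.mem_Icc, Finset.mem_Ioc]
        omega
      have hdisj : Disjoint (Finset.Icc 1 G) (Finset.Ioc G (2 ^ j)) := by
        rw [Finset.disjoint_left]
        intro g hg hg'
        rw [Finset.mem_Icc] at hg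
        rw [Finset.mem_Ioc] at hg'
        omega
      refine (Finset.sum_le_sum_of_subset_of_nonneg hsub fun _ _ _ => by positivity).trans ?_
      rw [Finset.sum_union hdisj]
      refine add_le_add ?_ ?_
      · calc ∑ g ∈ Finset.Icc 1 G, ((Pf A k (2 ^ j / g)).card : ℝ) ≤
            ∑ _g ∈ Finset.Icc 1 G, ((Pf A k (2 ^ j)).card : ℝ) := by
              refine Finset.sum_le_sum fun g _ => ?_
              exact_mod_cast Finset.card_le_card (Pf_mono A k (Nat.div_le_self _ _))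
          _ = G * ((Pf A k (2 ^ j)).card : ℝ) := by
              rw [Finset.sum_const, Nat.card_Icc, nsmul_eq_mul, Nat.add_sub_cancel]
      · calc ∑ g ∈ Finset.Ioc G (2 ^ j), ((Pf A k (2 ^ j / g)).card : ℝ) ≤
            ∑ g ∈ Finset.Ioc G (2 ^ j), C * ((2 : ℝ) ^ j) ^ E * ((g : ℝ) ^ 2)⁻¹ := by
              refine Finset.sum_le_sum fun g hg => ?_
              rw [Finset.mem_Ioc] at hg
              have hg1 : 1 ≤ g := by omega
              have hgR : (1 : ℝ) ≤ g := by exact_mod_cast hg1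
              have h1 : 1 ≤ 2 ^ j / g := (Nat.one_le_div_iff (by omega)).2 hg.2
              have h2 : ((Pf A k (2 ^ j / g)).card : ℝ) ≤ ((Zf A k (2 ^ j / g)).card : ℝ) := by
                exact_mod_cast Finset.card_le_card (Finset.filter_subset _ _)
              have h3 := hZ (2 ^ j / g) h1
              have h4 : (((2 ^ j / g : ℕ)) : ℝ) ≤ (2 : ℝ) ^ j / g := by
                refine Nat.cast_div_le.trans (le_of_eq ?_)
                push_cast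
                rfl
              have h5 : (((2 ^ j / g : ℕ)) : ℝ) ^ E ≤ ((2 : ℝ) ^ j / g) ^ E :=
                pow_le_pow_left₀ (by positivity) h4 E
              have h6 : ((2 : ℝ) ^ j / g) ^ E ≤ ((2 : ℝ) ^ j) ^ E * ((g : ℝ) ^ 2)⁻¹ := by
                rw [div_pow, div_eq_mul_inv]
                refine mul_le_mul_of_nonneg_left ?_ (by positivity)
                refine inv_anti₀ (by positivity) (pow_le_pow_right₀ hgR hE2)
              calc ((Pf A k (2 ^ j / g)).card : ℝ) ≤ C * (((2 ^ j / g : ℕ)) : ℝ) ^ E := h2.trans h3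
                _ ≤ C * (((2 : ℝ) ^ j) ^ E * ((g : ℝ) ^ 2)⁻¹) :=
                    mul_le_mul_of_nonneg_left (h5.trans h6) hC.le
                _ = _ := by ring
          _ = C * ((2 : ℝ) ^ j) ^ E * ∑ g ∈ Finset.Ioc G (2 ^ j), ((g : ℝ) ^ 2)⁻¹ := by
              rw [Finset.mul_sum]
          _ ≤ C * ((2 : ℝ) ^ j) ^ E * (1 / G) := by
              refine mul_le_mul_of_nonneg_left ?_ (by positivity)
              rcases le_or_gt G (2 ^ j) with h | h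
              · have h1 := sum_Ioc_inv_sq_le_sub (α := ℝ) hGn h
                have h2 : (0 : ℝ) ≤ (((2 ^ j : ℕ)) : ℝ)⁻¹ := by positivity
                rw [one_div]
                linarith
              · rw [Finset.Ioc_eq_empty (by omega), Finset.sum_empty]
                positivity
    have h1 : (N0 (G1 A k) (fun _ => -1) (fun _ => 1) j : ℝ) ≤
        1 + ∑ g ∈ Finset.Icc 1 (2 ^ j), ((Pf A k (2 ^ j / g)).card : ℝ) := by
      exact_mod_cast N0_le_sum A k j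
    have h2 : ((Pf A k (2 ^ j)).card : ℝ) ≤ 2 * ((Pts A k (2 ^ j)).ncard : ℝ) := by
      have h3 := card_Pf A k (2 ^ j)
      have h4 : (((2 ^ j : ℕ)) : ℝ) = 2 ^ j := by push_cast; rfl
      rw [h4] at h3
      exact_mod_cast h3
    have h3 := hlow' j hjj0
    have h4 : C * ((2 : ℝ) ^ j) ^ E * (1 / G) ≤ κ / 4 * ((2 : ℝ) ^ j) ^ E := by
      have h5 : C * ((2 : ℝ) ^ j) ^ E * (1 / G) = C / G * ((2 : ℝ) ^ j) ^ E := by ring
      rw [h5]
      exact mul_le_mul_of_nonneg_right hCG (by positivity)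
    have h5 : (G : ℝ) * ((Pf A k (2 ^ j)).card : ℝ) ≤ G * (2 * ((Pts A k (2 ^ j)).ncard : ℝ)) :=
      mul_le_mul_of_nonneg_left h2 hG0.le
    have h6 : κ / 2 * ((2 : ℝ) ^ j) ^ E ≤ G * (2 * ((Pts A k (2 ^ j)).ncard : ℝ)) := by linarith
    have h7 : κ / (4 * G) * ((2 : ℝ) ^ j) ^ E = (κ / 2 * ((2 : ℝ) ^ j) ^ E) / (2 * G) := by
      field_simp
      ring
    rw [h7, div_le_iff₀ (by positivity)]
    linarith
  refine ⟨κ / (4 * G) / 2 ^ E, by positivity, 2 ^ (max j0 j1), fun B hB => ?_⟩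
  have hB1 : (1 : ℝ) ≤ B := le_trans (one_le_pow₀ (by norm_num)) hB
  have hfl : ⌊B⌋₊ ≠ 0 := by
    have : 1 ≤ ⌊B⌋₊ := Nat.le_floor (by exact_mod_cast hB1)
    omega
  obtain ⟨j, hj⟩ : ∃ j, j = Nat.log 2 ⌊B⌋₊ := ⟨_, rfl⟩
  have hjle : max j0 j1 ≤ j := by
    rw [hj]
    refine Nat.le_log_of_pow_le (by norm_num) ?_
    refine Nat.le_floor ?_
    push_cast
    exact hB
  have hj2 : (2 : ℝ) ^ j ≤ B := by
    have h1 : 2 ^ j ≤ ⌊B⌋₊ := by
      rw [hj]
      exact Nat.pow_log_le_self 2 hfl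
    have h2 : ((2 ^ j : ℕ) : ℝ) ≤ (⌊B⌋₊ : ℝ) := by exact_mod_cast h1
    have h3 := Nat.floor_le (show 0 ≤ B by linarith)
    push_cast at h2
    linarith
  have hj3 : B ≤ 2 * (2 : ℝ) ^ j := by
    have h1 : ⌊B⌋₊ < 2 ^ (j + 1) := by
      rw [hj]
      exact Nat.lt_pow_succ_log_self (by norm_num) _
    have h2 : ⌊B⌋₊ + 1 ≤ 2 ^ (j + 1) := h1
    have h3 : ((⌊B⌋₊ + 1 : ℕ) : ℝ) ≤ ((2 ^ (j + 1) : ℕ) : ℝ) := by exact_mod_cast h2
    have h4 := Nat.lt_floor_add_one B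
    push_cast at h3
    rw [pow_succ] at h3
    linarith
  have h1 := hmain j hjle
  have h2 : (Pts A k (2 ^ j)).ncard ≤ (Pts A k B).ncard := by
    obtain ⟨j', hj'⟩ : ∃ j' : ℕ, B < 2 ^ j' := pow_unbounded_of_one_lt _ (by norm_num)
    exact Set.ncard_le_ncard (fun P hP => ⟨hP.1, hP.2.trans hj2⟩) (ncard_le A k B j' hj').1
  have h3 : ((Pts A k (2 ^ j)).ncard : ℝ) ≤ ((Pts A k B).ncard : ℝ) := by exact_mod_cast h2
  have h4 : B ^ E ≤ 2 ^ E * ((2 : ℝ) ^ j) ^ E := by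
    rw [← mul_pow]
    exact pow_le_pow_left₀ (by linarith) hj3 E
  calc κ / (4 * G) / 2 ^ E * B ^ E ≤ κ / (4 * G) / 2 ^ E * (2 ^ E * ((2 : ℝ) ^ j) ^ E) :=
        mul_le_mul_of_nonneg_left h4 (by positivity)
    _ = κ / (4 * G) * ((2 : ℝ) ^ j) ^ E := by field_simp
    _ ≤ _ := h1.trans h3

end Pool.Agent.helper613_wm
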