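import Pool.Agent.helper613_wm.W4
import Pool.Agent.helper613_wm.W7
import Pool.Agent.helper132_hp.T_C1
import Pool.Agent.helper132_hp.T_MV
import Pool.Agent.helper132_hp.T_VL
import Pool.Agent.helper132_hp.T_PAD
import Pool.Agent.helper132_hp.T_AS
import Pool.Agent.helper132_hp.T_NORM
import Pool.Agent.helper132_hp.T_GREEDY
import Pool.Agent.helper132_hp.T_CNT
import Pool.Agent.helper132_hp.T_PERT
import Pool.Agent.helper132_hp.T_HEN

/-! Points of bounded height: assembly. -/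

namespace Pool.Agent.helper613_wm

open Finset Pool.Agent.helper132_hp

variable {s : ℕ}

theorem sp_le (k : ℕ) (hk : 1 ≤ k) : sp k ≤ 10 ^ 35 * k ^ 65 := by
  unfold sp Nas
  obtain ⟨K, hK⟩ : ∃ K, K = k ^ 13 := ⟨_, rfl⟩
  have hK1 : 1 ≤ K := by rw [hK]; exact Nat.one_le_pow _ _ hk
  have e1 : (2 * k) ^ 13 = 8192 * K := by rw [mul_pow, hK]; norm_num
  have e2 : k ^ 65 = K ^ 5 := by rw [hK, ← pow_mul]
  rw [e1, e2, ← hK]
  obtain ⟨M, hM⟩ : ∃ M, M = 5000 * 1 ^ 3 * (8192 * K) + 5000 * 1 ^ 3 * K + 2 := ⟨_, rfl⟩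
  rw [← hM]
  have hM1 : M ≤ 40965002 * K := by rw [hM]; omega
  have hM4 : M ^ 4 ≤ (40965002 * K) ^ 4 := Nat.pow_le_pow_left hM1 4
  calc M * (5000 * M ^ 3 * K) = 5000 * M ^ 4 * K := by ring
    _ ≤ 5000 * (40965002 * K) ^ 4 * K := by gcongr
    _ = (5000 * 40965002 ^ 4) * K ^ 5 := by ring
    _ ≤ 10 ^ 35 * K ^ 5 := Nat.mul_le_mul_right _ (by norm_num)

theorem real_nonsing (A : Matrix (Fin s) (Fin s) ℤ) (hA : A.IsSymm) (k : ℕ) (hk : 1 ≤ k)
    (hprin : ∀ T : Finset (Fin s), T.Nonempty →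
      (A.submatrix (fun i : T => (i : Fin s)) (fun i : T => (i : Fin s))).det ≠ 0)
    (y : Fin s → ℝ) (hy : y ≠ 0) :
    ∃ l, MvPolynomial.aeval y (MvPolynomial.pderiv l (G1 A k)) ≠ 0 := by
  by_contra h
  push Not at h
  apply hy
  have h1 := smooth_of_minors A hA k hk hprin (fun i => (y i : ℂ)) (by
    intro l
    have h2 := h l
    rw [aeval_pderiv_G1] at h2 ⊢
    have h3 := congrArg (fun x : ℝ => (x : ℂ)) h2
    push_cast at h3
    exact h3)
  funext i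
  have := congrFun h1 i
  simpa using this

theorem realSm (A : Matrix (Fin s) (Fin s) ℤ) (hA : A.IsSymm) (k : ℕ) (hk : 1 ≤ k)
    (hprin : ∀ T : Finset (Fin s), T.Nonempty →
      (A.submatrix (fun i : T => (i : Fin s)) (fun i : T => (i : Fin s))).det ≠ 0)
    (y : Fin s → ℝ) (hy : y ≠ 0) (hy0 : MvPolynomial.aeval y (G1 A k) = 0) :
    RealSm (G1 A k) (fun _ => -1) (fun _ => 1) := by
  obtain ⟨t, ht⟩ : ∃ t : ℝ, t = 1 / (1 + ∑ i, |y i|) := ⟨_, rfl⟩
  have hsum : 0 ≤ ∑ i, |y i| := Finset.sum_nonneg fun i _ => abs_nonneg _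
  have ht0 : 0 < t := by rw [ht]; positivity
  have hty : ∀ i, |t * y i| < 1 := by
    intro i
    rw [abs_mul, abs_of_pos ht0, ht, one_div, inv_mul_lt_iff₀ (by linarith)]
    have := Finset.single_le_sum (f := fun i => |y i|) (fun i _ => abs_nonneg _) (Finset.mem_univ i)
    linarith
  have hne : (fun i => t * y i) ≠ 0 := by
    intro h
    apply hy
    funext i
    have := congrFun h i
    simp only [Pi.zero_apply, mul_eq_zero] at this
    exact this.resolve_left ht0.ne'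
  obtain ⟨l, hl⟩ := real_nonsing A hA k hk hprin (fun i => t * y i) hne
  refine ⟨fun i => t * y i, fun i => ?_, ?_, l, hl⟩
  · have := abs_lt.1 (hty i)
    push_cast
    exact this
  · rw [aeval_G1'] at hy0 ⊢
    have h1 : ∑ i, ∑ j, (A i j : ℝ) * (t * y i) ^ k * (t * y j) ^ k =
        t ^ (2 * k) * ∑ i, ∑ j, (A i j : ℝ) * y i ^ k * y j ^ k := by
      rw [Finset.mul_sum]
      refine Finset.sum_congr rfl fun i _ => ?_
      rw [Finset.mul_sum]
      refine Finset.sum_congr rfl fun j _ => ?_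
      rw [mul_pow, mul_pow, two_mul, pow_add]
      ring
    rw [h1, hy0, mul_zero]

theorem det_ne (A : Matrix (Fin s) (Fin s) ℤ) (hs : 0 < s)
    (hprin : ∀ T : Finset (Fin s), T.Nonempty →
      (A.submatrix (fun i : T => (i : Fin s)) (fun i : T => (i : Fin s))).det ≠ 0) :
    A.det ≠ 0 := by
  have h := hprin Finset.univ ⟨⟨0, hs⟩, Finset.mem_univ _⟩
  have e : A.submatrix (fun i : (Finset.univ : Finset (Fin s)) => (i : Fin s))
      (fun i : (Finset.univ : Finset (Fin s)) => (i : Fin s)) =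
      A.submatrix (Equiv.subtypeUnivEquiv (fun i => Finset.mem_univ i))
        (Equiv.subtypeUnivEquiv (fun i => Finset.mem_univ i)) := rfl
  rw [e, Matrix.det_submatrix_equiv_self] at h
  exact h

theorem pdens (A : Matrix (Fin s) (Fin s) ℤ) (hA : A.IsSymm) (k : ℕ) (hk : 1 ≤ k)
    (hdet : A.det ≠ 0) (hs : 10 ^ 35 * k ^ 65 ≤ s) : PDens (G1 A k) := by
  intro p hp
  have : Fact p.Prime := ⟨hp⟩
  obtain ⟨z, hz0, hz1⟩ := t_PAD (t_AS t_NORM t_GREEDY t_CNT t_PERT) p k hk s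
    ((sp_le k hk).trans hs) A hA hdet
  exact t_HEN (Fin s) (G1 A k) p z hz0 hz1

theorem main (k : ℕ) (hk : 1 ≤ k) (s : ℕ) (A : Matrix (Fin s) (Fin s) ℤ) (hA : A.IsSymm)
    (I J : Fin (3000 * k ^ 5) → Fin s) (hI : Function.Injective I) (hJ : Function.Injective J)
    (hIJ : ∀ i j, I i ≠ J j) (hdet : (A.submatrix I J).det ≠ 0) :
    (∃ C : ℝ, ∀ B : ℝ, 1 ≤ B → (Pts A k B).Finite ∧
      ((Pts A k B).ncard : ℝ) ≤ C * B ^ (s - 2 * k)) ∧
    ((∀ T : Finset (Fin s), T.Nonempty →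
      (A.submatrix (fun i : T => (i : Fin s)) (fun i : T => (i : Fin s))).det ≠ 0) →
      (∀ y : Fin s → ℂ, (∀ l, MvPolynomial.aeval y (MvPolynomial.pderiv l (G1 A k)) = 0) →
        y = 0) ∧
      (10 ^ 35 * k ^ 65 ≤ s → (∃ y : Fin s → ℝ, y ≠ 0 ∧ MvPolynomial.aeval y (G1 A k) = 0) →
        ∃ c : ℝ, 0 < c ∧ ∃ B0 : ℝ, ∀ B ≥ B0,
          c * B ^ (s - 2 * k) ≤ ((Pts A k B).ncard : ℝ))) := by
  have hcard : 3000 * k ^ 5 ≤ s := by
    have := Fintype.card_le_of_injective I hI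
    rwa [Fintype.card_fin, Fintype.card_fin] at this
  have hk5 : k ≤ k ^ 5 := Nat.le_self_pow (by norm_num) k
  have hs2 : 2 * k + 2 ≤ s := by omega
  have hcr : Crude (G1 A k) (2 * k) (fun _ => -1) (fun _ => 1) :=
    t_C1 t_MV t_VL k hk s A hA I J hI hJ hIJ hdet (fun _ => -1) (fun _ => 1)
      (fun _ => by norm_num)
  refine ⟨?_, fun hprin => ⟨smooth_of_minors A hA k hk hprin, fun hs hreal => ?_⟩⟩
  · obtain ⟨C, _, h⟩ := upper A k hk (by omega) hcr
    exact ⟨C, h⟩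
  · obtain ⟨y, hy, hy0⟩ := hreal
    exact lower A k hk hs2 hcr (N0_lower (G1 A k) (2 * k) (by omega) (homog_G1 A k) (fun _ => -1)
      (fun _ => 1) (fun _ => by norm_num) hcr (realSm A hA k hk hprin y hy hy0)
      (pdens A hA k hk (det_ne A (by omega) hprin) hs))

end Pool.Agent.helper613_wm
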