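import Pool.Agent.helper613_wm.W9

/-! Number of primitive zeros = twice the number of points (helper852). -/

namespace Pool.Agent.helper613_wm

open Finset Pool.Agent.helper132_hp

variable {s : ℕ}

theorem eval_neg852 (A : Matrix (Fin s) (Fin s) ℤ) (k : ℕ) (x : Fin s → ℤ) :
    MvPolynomial.eval (-x) (G1 A k) = MvPolynomial.eval x (G1 A k) := by
  rw [eval_G1', eval_G1']
  refine Finset.sum_congr rfl fun i _ => Finset.sum_congr rfl fun j _ => ?_
  rw [Pi.neg_apply, Pi.neg_apply, mul_assoc, mul_assoc, ← mul_pow, ← mul_pow, neg_mul_neg]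

theorem gcd_neg852 (x : Fin s → ℤ) (h : Finset.univ.gcd x = 1) : Finset.univ.gcd (-x) = 1 := by
  have h1 : Finset.univ.gcd (-x) = Finset.univ.gcd (fun i => (-1 : ℤ) * x i) :=
    Finset.gcd_congr rfl fun i _ => by rw [Pi.neg_apply, neg_one_mul]
  rw [h1, Finset.gcd_mul_left, h, mul_one, ← Int.abs_eq_normalize]
  norm_num

theorem neg_mem_Pf852 (A : Matrix (Fin s) (Fin s) ℤ) (k m : ℕ) (x : Fin s → ℤ)
    (hx : x ∈ Pf A k m) : -x ∈ Pf A k m := by
  unfold Pf at hx ⊢
  rw [Finset.mem_filter, mem_Zf] at hx ⊢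
  obtain ⟨⟨h1, h2, h3⟩, h4⟩ := hx
  refine ⟨⟨fun i => ?_, neg_ne_zero.2 h2, ?_⟩, gcd_neg852 x h4⟩
  · rw [Pi.neg_apply, abs_neg]
    exact h1 i
  · rw [eval_neg852]
    exact h3

/-- the primitive integer zeros are twice as many as the rational points. -/
theorem card_Pf_eq (A : Matrix (Fin s) (Fin s) ℤ) (k m : ℕ) :
    (Pf A k m).card = 2 * (Pts A k m).ncard := by
  classical
  refine le_antisymm (card_Pf A k m) ?_
  have hex : ∀ P : Projectivization ℚ (Fin s → ℚ), ∃ x : Fin s → ℤ,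
      ∃ h : (fun i => (x i : ℚ)) ≠ 0, Finset.univ.gcd x = 1 ∧
      P = Projectivization.mk ℚ (fun i => (x i : ℚ)) h := exists_prim
  choose f hf0 hf1 hf2 using hex
  obtain ⟨j, hj⟩ : ∃ j : ℕ, (m : ℝ) < 2 ^ j := pow_unbounded_of_one_lt _ (by norm_num)
  have hfin := (ncard_le A k m j hj).1
  have hinj : Function.Injective f := by
    intro P Q hPQ
    rw [hf2 P, hf2 Q]
    simp only [hPQ]
  have hinj' : Function.Injective (fun P => -f P) := fun P Q h => hinj (neg_injective h)
  have hmem : ∀ P ∈ Pts A k m, f P ∈ Pf A k m := by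
    intro P hP
    obtain ⟨h1, h2⟩ := hP
    unfold Pf
    rw [Finset.mem_filter, mem_Zf]
    refine ⟨⟨fun i => ?_, ?_, ?_⟩, hf1 P⟩
    · have h3 : (|f P i| : ℝ) ≤ m := by
        refine abs_le_of_mulHeight (f P) (hf0 P) (hf1 P) m ?_ i
        rw [← hf2 P]
        exact h2
      exact_mod_cast h3
    · intro h0
      apply hf0 P
      funext i
      rw [h0]
      simp
    · rw [← rep_iff A k (f P) (hf0 P), ← hf2 P]
      exact h1
  have hdisj : Disjoint (f '' (Pts A k m)) ((fun P => -f P) '' (Pts A k m)) := by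
    rw [Set.disjoint_left]
    rintro _ ⟨P, hP, rfl⟩ ⟨Q, hQ, hPQ⟩
    have hPQ' : -f Q = f P := hPQ
    have h1 : Q = P := by
      rw [hf2 P, hf2 Q, Projectivization.mk_eq_mk_iff']
      refine ⟨-1, ?_⟩
      funext i
      have h2 : f P i = -f Q i := by
        rw [← hPQ', Pi.neg_apply]
      rw [Pi.smul_apply, smul_eq_mul, h2]
      push_cast
      ring
    rw [h1] at hPQ'
    apply hf0 P
    funext i
    have h3 := congrFun hPQ' i
    rw [Pi.neg_apply] at h3
    have h4 : f P i = 0 := by omega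
    rw [h4]
    simp
  have hsub : (f '' (Pts A k m)) ∪ ((fun P => -f P) '' (Pts A k m)) ⊆
      ((Pf A k m : Finset (Fin s → ℤ)) : Set (Fin s → ℤ)) := by
    rintro x (⟨P, hP, rfl⟩ | ⟨P, hP, rfl⟩)
    · exact hmem P hP
    · exact neg_mem_Pf852 A k m _ (hmem P hP)
  have h1 := Set.ncard_le_ncard hsub (Finset.finite_toSet _)
  rw [Set.ncard_coe_finset, Set.ncard_union_eq hdisj (hfin.image f) (hfin.image _),
    Set.ncard_image_of_injective _ hinj, Set.ncard_image_of_injective _ hinj'] at h1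
  omega

end Pool.Agent.helper613_wm
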